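import Mathlib

/-!
Sets of pencils, Zariski density, matrix action, monotonicity.
-/

set_option autoImplicit false

namespace Pool.Agent.H41.Pen

open Finset Topology

/-- The set `S` is Zariski dense. -/
def FillSet {σ : Type*} (S : Set (σ → ℂ)) : Prop :=
  ∀ F : MvPolynomial σ ℂ, (∀ T ∈ S, MvPolynomial.eval T F = 0) → F = 0

/-- Sums of `s` elements. -/
def SumS {σ : Type*} (K : Set (σ → ℂ)) (s : ℕ) : Set (σ → ℂ) :=
  {T | ∃ S : Fin s → (σ → ℂ), (∀ j, S j ∈ K) ∧ T = ∑ j, S j}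

theorem FillSet.mono {σ : Type*} {S S' : Set (σ → ℂ)} (h : FillSet S) (hS : S ⊆ S') :
    FillSet S' := fun F hF => h F fun T hT => hF T (hS hT)

/-- A set containing a neighbourhood of a point is dense. -/
theorem fillSet_of_nhds {σ : Type*} [Fintype σ] {S : Set (σ → ℂ)} {T0 : σ → ℂ}
    (h : ∀ᶠ T in 𝓝 T0, T ∈ S) : FillSet S := by
  intro F hF
  obtain ⟨δ, hδ, hball⟩ := Metric.eventually_nhds_iff_ball.mp h
  refine MvPolynomial.funext_set (fun x => Metric.ball (T0 x) δ) (fun x => ?_) fun T hT => ?_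
  · exact infinite_of_mem_nhds (T0 x) (Metric.ball_mem_nhds _ hδ)
  · rw [map_zero]
    apply hF
    apply hball
    rw [ball_pi _ hδ]
    exact hT

theorem fderiv_apply_of_affine {E F : Type*} [NormedAddCommGroup E] [NormedSpace ℂ E]
    [NormedAddCommGroup F] [NormedSpace ℂ F] {f : E → F} {f' : E →L[ℂ] F} {p v : E} {L : F}
    (hf : HasFDerivAt f f' p) (h : ∀ ε : ℂ, f (p + ε • v) = f p + ε • L) : f' v = L := by
  have h1 : HasDerivAt (fun ε : ℂ => p + ε • v) v 0 := by
    simpa using ((hasDerivAt_id (0 : ℂ)).smul_const v).const_add p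
  have h2 : HasDerivAt (fun ε : ℂ => f (p + ε • v)) (f' v) 0 := by
    have hf' : HasFDerivAt f f' (p + (0 : ℂ) • v) := by simpa using hf
    exact hf'.comp_hasDerivAt 0 h1
  have h3 : HasDerivAt (fun ε : ℂ => f p + ε • L) L 0 := by
    simpa using ((hasDerivAt_id (0 : ℂ)).smul_const L).const_add (f p)
  have h4 : (fun ε : ℂ => f (p + ε • v)) = fun ε : ℂ => f p + ε • L := funext h
  rw [h4] at h2
  exact h2.unique h3

/-- Density from surjectivity of the differential: `f` is `C¹`, the vectors `L i` are directional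
derivatives, only the zero functional vanishes on all `L i`. -/
theorem fillSet_of_param {σ E : Type*} [Fintype σ] [DecidableEq σ]
    [NormedAddCommGroup E] [NormedSpace ℂ E] [CompleteSpace E]
    {f : E → (σ → ℂ)} (hf : ContDiff ℂ 1 f) (p : E) {S : Set (σ → ℂ)}
    (hS : ∀ᶠ x in 𝓝 p, f x ∈ S) {ι : Type*} (v : ι → E) (L : ι → (σ → ℂ))
    (hv : ∀ i (ε : ℂ), f (p + ε • v i) = f p + ε • L i)
    (hL : ∀ φ : σ → ℂ, (∀ i, ∑ x, φ x * L i x = 0) → φ = 0) : FillSet S := by
  have hstrict : HasStrictFDerivAt f (fderiv ℂ f p) p :=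
    hf.contDiffAt.hasStrictFDerivAt one_ne_zero
  have hd := hstrict.hasFDerivAt
  have hrange : (fderiv ℂ f p).range = ⊤ := by
    by_contra hne
    obtain ⟨φ, hφ0, hφ⟩ := Submodule.exists_le_ker_of_lt_top _ (lt_top_iff_ne_top.mpr hne)
    apply hφ0
    have hφx : ∀ T : σ → ℂ, φ T = ∑ x, φ (Pi.single x 1) * T x := by
      intro T
      conv_lhs => rw [pi_eq_sum_univ T]
      rw [map_sum]
      refine Finset.sum_congr rfl fun x _ => ?_
      rw [map_smul, smul_eq_mul, mul_comm]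
      congr 2
      funext y
      simp [Pi.single_apply, eq_comm]
    have h0 := hL (fun x => φ (Pi.single x 1)) (fun i => by
      rw [← hφx]
      have : L i ∈ (fderiv ℂ f p).range := ⟨v i, fderiv_apply_of_affine hd (hv i)⟩
      exact hφ this)
    ext x
    simpa using congrFun h0 x
  have hmap := hstrict.map_nhds_eq_of_surj hrange
  apply fillSet_of_nhds (T0 := f p)
  rw [← hmap, Filter.eventually_map]
  exact hS

section cones

variable {α β α' β' : Type*}

/-- The slices of a pencil. -/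
def slice (T : α × β × Fin 2 → ℂ) (z : Fin 2) : Matrix α β ℂ := fun a b => T (a, b, z)

/-- Pencils `M ⊗ c` with `rank M ≤ L`. -/
def K1 (α β : Type*) (L : ℕ) : Set (α × β × Fin 2 → ℂ) :=
  {T | ∃ (C : Matrix α (Fin L) ℂ) (R : Matrix (Fin L) β ℂ) (c : Fin 2 → ℂ),
    ∀ z, slice T z = c z • (C * R)}

/-- Pencils of size `r₁ × r₂` up to equivalence. -/
def K2 (α β : Type*) (r₁ r₂ : ℕ) : Set (α × β × Fin 2 → ℂ) :=
  {T | ∃ (C : Matrix α (Fin r₁) ℂ) (R : Matrix (Fin r₂) β ℂ)
    (G : Fin 2 → Matrix (Fin r₁) (Fin r₂) ℂ), ∀ z, slice T z = C * G z * R}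

/-- Left and right multiplication. -/
def act [Fintype α] [Fintype β] (g : Matrix α' α ℂ) (h : Matrix β β' ℂ) (T : α × β × Fin 2 → ℂ) :
    α' × β' × Fin 2 → ℂ := fun x => (g * slice T x.2.2 * h) x.1 x.2.1

theorem slice_act [Fintype α] [Fintype β] (g : Matrix α' α ℂ) (h : Matrix β β' ℂ)
    (T : α × β × Fin 2 → ℂ) (z : Fin 2) : slice (act g h T) z = g * slice T z * h := rfl

theorem slice_sum {ι : Type*} (s : Finset ι) (T : ι → (α × β × Fin 2 → ℂ)) (z : Fin 2) :
    slice (∑ j ∈ s, T j) z = ∑ j ∈ s, slice (T j) z := by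
  ext a b
  simp only [slice, Finset.sum_apply, Matrix.sum_apply]

theorem ext_slice {T T' : α × β × Fin 2 → ℂ} (h : ∀ z, slice T z = slice T' z) : T = T' := by
  funext ⟨a, b, z⟩
  exact congrFun (congrFun (h z) a) b

theorem act_sum [Fintype α] [Fintype β] (g : Matrix α' α ℂ) (h : Matrix β β' ℂ) {ι : Type*}
    (s : Finset ι) (T : ι → (α × β × Fin 2 → ℂ)) :
    act g h (∑ j ∈ s, T j) = ∑ j ∈ s, act g h (T j) := by
  apply ext_slice
  intro z
  rw [slice_sum, slice_act, slice_sum, Matrix.mul_sum, Matrix.sum_mul]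
  rfl

theorem act_mem_K1 [Fintype α] [Fintype β] (g : Matrix α' α ℂ) (h : Matrix β β' ℂ) {L : ℕ}
    {T : α × β × Fin 2 → ℂ} (hT : T ∈ K1 α β L) : act g h T ∈ K1 α' β' L := by
  obtain ⟨C, R, c, hT⟩ := hT
  refine ⟨g * C, R * h, c, fun z => ?_⟩
  rw [slice_act, hT]
  simp only [Matrix.mul_smul, Matrix.smul_mul, Matrix.mul_assoc]

theorem act_mem_K2 [Fintype α] [Fintype β] (g : Matrix α' α ℂ) (h : Matrix β β' ℂ) {r₁ r₂ : ℕ}
    {T : α × β × Fin 2 → ℂ} (hT : T ∈ K2 α β r₁ r₂) : act g h T ∈ K2 α' β' r₁ r₂ := by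
  obtain ⟨C, R, G, hT⟩ := hT
  refine ⟨g * C, R * h, G, fun z => ?_⟩
  rw [slice_act, hT]
  simp only [Matrix.mul_assoc]

/-- A family of cones stable under multiplication from both sides. -/
structure Stab (K : ∀ (α β : Type), Set (α × β × Fin 2 → ℂ)) : Prop where
  act_mem : ∀ {α β α' β' : Type} [Fintype α] [Fintype β] (g : Matrix α' α ℂ) (h : Matrix β β' ℂ)
    {T : α × β × Fin 2 → ℂ}, T ∈ K α β → act g h T ∈ K α' β'

theorem stab_K1 (L : ℕ) : Stab (fun α β => K1 α β L) := ⟨fun g h _ hT => act_mem_K1 g h hT⟩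

theorem stab_K2 (r₁ r₂ : ℕ) : Stab (fun α β => K2 α β r₁ r₂) :=
  ⟨fun g h _ hT => act_mem_K2 g h hT⟩

end cones

section stab

variable {α β α' β' : Type} {K : ∀ (α β : Type), Set (α × β × Fin 2 → ℂ)}

theorem Stab.sums (hK : Stab K) [Fintype α] [Fintype β] (g : Matrix α' α ℂ) (h : Matrix β β' ℂ)
    {s : ℕ} {T : α × β × Fin 2 → ℂ} (hT : T ∈ SumS (K α β) s) :
    act g h T ∈ SumS (K α' β') s := by
  obtain ⟨S, hS, rfl⟩ := hT
  exact ⟨fun j => act g h (S j), fun j => hK.act_mem g h (hS j), act_sum g h _ S⟩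

/-- Monotonicity in the size. -/
theorem Stab.mono (hK : Stab K) [Fintype α] [Fintype β] [Fintype α'] [Fintype β']
    [DecidableEq α'] [DecidableEq β'] (f : α → α') (hf : Function.Injective f)
    (g : β → β') (hg : Function.Injective g) {s : ℕ}
    (h : FillSet (SumS (K α' β') s)) : FillSet (SumS (K α β) s) := by
  intro F hF
  have hinj : Function.Injective (fun x : α × β × Fin 2 => ((f x.1, g x.2.1, x.2.2) :
      α' × β' × Fin 2)) := by
    rintro ⟨a, b, z⟩ ⟨a', b', z'⟩ h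
    simp only [Prod.mk.injEq] at h
    rw [hf h.1, hg h.2.1, h.2.2]
  apply MvPolynomial.rename_injective _ hinj
  rw [map_zero]
  apply h
  intro T hT
  rw [MvPolynomial.eval_rename]
  apply hF
  have := hK.sums (Matrix.of fun (a : α) (a' : α') => if a' = f a then (1 : ℂ) else 0)
    (Matrix.of fun (b' : β') (b : β) => if b' = g b then (1 : ℂ) else 0) hT
  convert this using 1
  funext ⟨a, b, z⟩
  simp only [act, Matrix.mul_apply, Function.comp, Matrix.of_apply, ite_mul, one_mul, zero_mul,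
    mul_ite, mul_one, mul_zero, Finset.sum_ite_eq', Finset.sum_ite_eq, Finset.mem_univ, if_true,
    slice]

/-- Sizes `p × q` with `q ≥ 2p` reduce to `q = 2p`. -/
theorem Stab.wide (hK : Stab K) [Fintype α] [DecidableEq α] [Fintype β] {s : ℕ}
    (h : FillSet (SumS (K α (α × Fin 2)) s)) : FillSet (SumS (K α β) s) := by
  classical
  obtain ⟨T', hT', hdet⟩ : ∃ T' ∈ SumS (K α (α × Fin 2)) s,
      (Matrix.of fun (b : α × Fin 2) (x : α × Fin 2) => T' (x.1, b, x.2)).det ≠ 0 := by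
    by_contra hcon
    push Not at hcon
    set P : MvPolynomial (α × (α × Fin 2) × Fin 2) ℂ :=
      (Matrix.of fun (b : α × Fin 2) (x : α × Fin 2) =>
        (MvPolynomial.X (x.1, b, x.2) : MvPolynomial (α × (α × Fin 2) × Fin 2) ℂ)).det with hP
    have heval : ∀ T : α × (α × Fin 2) × Fin 2 → ℂ, MvPolynomial.eval T P =
        (Matrix.of fun (b : α × Fin 2) (x : α × Fin 2) => T (x.1, b, x.2)).det := by
      intro T
      rw [hP, RingHom.map_det]
      congr 1
      ext b x
      simp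
    have hP0 : P = 0 := h P fun T hT => by rw [heval]; exact hcon T hT
    have h1 := heval (fun y => if y.2.1 = (y.1, y.2.2) then 1 else 0)
    rw [hP0, map_zero] at h1
    have h2 : (Matrix.of fun (b : α × Fin 2) (x : α × Fin 2) =>
        (fun y : α × (α × Fin 2) × Fin 2 => if y.2.1 = (y.1, y.2.2) then (1 : ℂ) else 0)
          (x.1, b, x.2)) = 1 := by
      ext b x
      simp only [Matrix.of_apply, Matrix.one_apply, Prod.mk.eta]
    rw [h2, Matrix.det_one] at h1
    exact zero_ne_one h1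
  have hall : ∀ T : α × β × Fin 2 → ℂ, T ∈ SumS (K α β) s := by
    intro T
    set M : Matrix (α × Fin 2) (α × Fin 2) ℂ :=
      Matrix.of fun (b : α × Fin 2) (x : α × Fin 2) => T' (x.1, b, x.2) with hM
    set N : Matrix β (α × Fin 2) ℂ := Matrix.of fun b x => T (x.1, b, x.2) with hN
    have hH : (N * M⁻¹) * M = N := by
      rw [Matrix.mul_assoc, Matrix.nonsing_inv_mul _ (isUnit_iff_ne_zero.mpr hdet), Matrix.mul_one]
    have := hK.sums (1 : Matrix α α ℂ) (N * M⁻¹).transpose hT'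
    convert this using 1
    funext ⟨a, b, z⟩
    have h1 : ((N * M⁻¹) * M) b (a, z) = T (a, b, z) := by rw [hH]; rfl
    rw [← h1]
    simp only [act, Matrix.one_mul]
    rw [Matrix.mul_apply, Matrix.mul_apply]
    refine Finset.sum_congr rfl fun b' _ => ?_
    rw [Matrix.transpose_apply, mul_comm]
    rfl
  intro F hF
  apply MvPolynomial.funext
  intro T
  rw [map_zero]
  exact hF T (hall T)

end stab

end Pool.Agent.H41.Pen
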