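import Pool.Agent.H41.Pen.Lower

/-!
Bridge between the definition of the subspace variety and pencils.
-/

set_option autoImplicit false

namespace Pool.Agent.H41.Pen

open Finset Module

/-- The decomposable tensor. -/
def dec {n : ℕ} {m : Fin n → ℕ} (v : ∀ i, Fin (m i) → ℂ) : (∀ i, Fin (m i)) → ℂ :=
  fun x => ∏ i, v i (x i)

/-- The cone over the subspace variety. -/
def Cone {n : ℕ} (m r : Fin n → ℕ) : Set ((∀ i, Fin (m i)) → ℂ) :=
  {T | ∃ A : ∀ i, Submodule ℂ (Fin (m i) → ℂ), (∀ i, finrank ℂ (A i) = r i) ∧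
    T ∈ Submodule.span ℂ {S | ∃ v : ∀ i, Fin (m i) → ℂ, (∀ i, v i ∈ A i) ∧ S = dec v}}

theorem exists_sub {p L r : ℕ} (hLr : L ≤ r) (hrp : r ≤ p) (u : Fin L → (Fin p → ℂ)) :
    ∃ A : Submodule ℂ (Fin p → ℂ), finrank ℂ A = r ∧ ∀ l, u l ∈ A := by
  set W : Submodule ℂ (Fin p → ℂ) := Submodule.span ℂ (Set.range u) with hW
  have hWL : finrank ℂ W ≤ L := by
    have := finrank_range_le_card (R := ℂ) u
    simpa [Set.finrank] using this
  obtain ⟨W', hW'⟩ := Submodule.exists_isCompl W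
  have hsum := Submodule.finrank_add_eq_of_isCompl hW'
  rw [Module.finrank_fin_fun] at hsum
  have hle : r - finrank ℂ W ≤ finrank ℂ W' := by omega
  obtain ⟨f, hf⟩ := exists_linearIndependent_of_le_finrank hle
  set B : Submodule ℂ W' := Submodule.span ℂ (Set.range f) with hB
  have hBf : finrank ℂ B = r - finrank ℂ W := by
    rw [hB, finrank_span_eq_card hf, Fintype.card_fin]
  set B' : Submodule ℂ (Fin p → ℂ) := B.map W'.subtype with hB'
  have hB'f : finrank ℂ B' = r - finrank ℂ W := by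
    rw [hB', Submodule.finrank_map_subtype_eq, hBf]
  have hinf : W ⊓ B' = ⊥ := by
    rw [eq_bot_iff, ← hW'.inf_eq_bot]
    exact inf_le_inf_left _ (Submodule.map_subtype_le _ _)
  have hs := Submodule.finrank_sup_add_finrank_inf_eq W B'
  rw [hinf, finrank_bot, add_zero, hB'f] at hs
  refine ⟨W ⊔ B', by omega, fun l => ?_⟩
  exact (le_sup_left : W ≤ W ⊔ B') (Submodule.subset_span ⟨l, rfl⟩)

section three

variable {p q : ℕ}

/-- Coordinates of a three way array. -/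
def co (p q : ℕ) (x : ∀ i : Fin 3, Fin ((![p, q, 2] : Fin 3 → ℕ) i)) : Fin p × Fin q × Fin 2 :=
  (x 0, x 1, x 2)

/-- The inverse. -/
def oc (p q : ℕ) (y : Fin p × Fin q × Fin 2) : ∀ i : Fin 3, Fin ((![p, q, 2] : Fin 3 → ℕ) i) :=
  Fin.cons (α := fun i => Fin ((![p, q, 2] : Fin 3 → ℕ) i)) y.1
    (Fin.cons (α := fun i : Fin 2 => Fin ((![p, q, 2] : Fin 3 → ℕ) i.succ)) y.2.1
      (Fin.cons (α := fun i : Fin 1 => Fin ((![p, q, 2] : Fin 3 → ℕ) i.succ.succ)) y.2.2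
        (fun i => i.elim0)))

theorem co_oc (y : Fin p × Fin q × Fin 2) : co p q (oc p q y) = y := rfl

theorem oc_co (x : ∀ i : Fin 3, Fin ((![p, q, 2] : Fin 3 → ℕ) i)) : oc p q (co p q x) = x := by
  funext i
  fin_cases i <;> rfl

/-- Vectors of the three factors. -/
def vec3 (u : Fin p → ℂ) (v : Fin q → ℂ) (w : Fin 2 → ℂ) :
    ∀ i : Fin 3, Fin ((![p, q, 2] : Fin 3 → ℕ) i) → ℂ :=
  Fin.cons (α := fun i => Fin ((![p, q, 2] : Fin 3 → ℕ) i) → ℂ) u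
    (Fin.cons (α := fun i : Fin 2 => Fin ((![p, q, 2] : Fin 3 → ℕ) i.succ) → ℂ) v
      (Fin.cons (α := fun i : Fin 1 => Fin ((![p, q, 2] : Fin 3 → ℕ) i.succ.succ) → ℂ) w
        (fun i => i.elim0)))

theorem dec_vec3 (u : Fin p → ℂ) (v : Fin q → ℂ) (w : Fin 2 → ℂ)
    (x : ∀ i : Fin 3, Fin ((![p, q, 2] : Fin 3 → ℕ) i)) :
    dec (vec3 u v w) x = u (x 0) * v (x 1) * w (x 2) := by
  rw [dec, Fin.prod_univ_three]
  rfl

/-- Subspaces of the three factors. -/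
def sub3 (A : Submodule ℂ (Fin p → ℂ)) (B : Submodule ℂ (Fin q → ℂ))
    (D : Submodule ℂ (Fin 2 → ℂ)) :
    ∀ i : Fin 3, Submodule ℂ (Fin ((![p, q, 2] : Fin 3 → ℕ) i) → ℂ) :=
  Fin.cons (α := fun i => Submodule ℂ (Fin ((![p, q, 2] : Fin 3 → ℕ) i) → ℂ)) A
    (Fin.cons (α := fun i : Fin 2 => Submodule ℂ (Fin ((![p, q, 2] : Fin 3 → ℕ) i.succ) → ℂ)) B
      (Fin.cons (α := fun i : Fin 1 =>
        Submodule ℂ (Fin ((![p, q, 2] : Fin 3 → ℕ) i.succ.succ) → ℂ)) D (fun i => i.elim0)))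

/-- From a Tucker form with few columns to the cone. -/
theorem mem_cone {ρ₁ ρ₂ ρ₃ r₁ r₂ r₃ : ℕ} (h₁ : ρ₁ ≤ r₁) (h₁' : r₁ ≤ p) (h₂ : ρ₂ ≤ r₂)
    (h₂' : r₂ ≤ q) (h₃ : ρ₃ ≤ r₃) (h₃' : r₃ ≤ 2) (C : Fin ρ₁ → Fin p → ℂ) (R : Fin ρ₂ → Fin q → ℂ)
    (D : Fin ρ₃ → Fin 2 → ℂ) (G : Fin ρ₁ → Fin ρ₂ → Fin ρ₃ → ℂ)
    {T : (∀ i : Fin 3, Fin ((![p, q, 2] : Fin 3 → ℕ) i)) → ℂ}
    (hT : ∀ x, T x = ∑ i, ∑ j, ∑ k,
      G i j k * (C i (co p q x).1 * R j (co p q x).2.1 * D k (co p q x).2.2)) :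
    T ∈ Cone ![p, q, 2] ![r₁, r₂, r₃] := by
  obtain ⟨A, hA, hCA⟩ := exists_sub h₁ h₁' C
  obtain ⟨B, hB, hRB⟩ := exists_sub h₂ h₂' R
  obtain ⟨E, hE, hDE⟩ := exists_sub h₃ h₃' D
  refine ⟨sub3 A B E, ?_, ?_⟩
  · intro i
    fin_cases i
    · exact hA
    · exact hB
    · exact hE
  · have hTe : T = ∑ i, ∑ j, ∑ k, G i j k • dec (vec3 (C i) (R j) (D k)) := by
      funext x
      rw [hT]
      simp only [Finset.sum_apply, Pi.smul_apply, smul_eq_mul, dec_vec3]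
      rfl
    rw [hTe]
    refine Submodule.sum_mem _ fun i _ => Submodule.sum_mem _ fun j _ =>
      Submodule.sum_mem _ fun k _ => Submodule.smul_mem _ _ (Submodule.subset_span ?_)
    refine ⟨_, ?_, rfl⟩
    intro l
    fin_cases l
    · exact hCA i
    · exact hRB j
    · exact hDE k

theorem cone_of_K1 {L r₁ r₂ : ℕ} (h₁ : L ≤ r₁) (h₁' : r₁ ≤ p) (h₂ : L ≤ r₂) (h₂' : r₂ ≤ q)
    {T : Fin p × Fin q × Fin 2 → ℂ} (hT : T ∈ K1 (Fin p) (Fin q) L) :
    (fun x => T (co p q x)) ∈ Cone ![p, q, 2] ![r₁, r₂, 1] := by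
  obtain ⟨C, R, c, h⟩ := hT
  refine mem_cone (ρ₁ := L) (ρ₂ := L) (ρ₃ := 1) h₁ h₁' h₂ h₂' le_rfl (by norm_num)
    (fun i a => C a i) (fun j b => R j b) (fun _ z => c z) (fun i j _ => if i = j then 1 else 0)
    fun x => ?_
  beta_reduce
  generalize co p q x = y
  obtain ⟨a, b, z⟩ := y
  have := congrFun (congrFun (h z) a) b
  change T (a, b, z) = _ at this
  rw [this, Matrix.smul_apply, Matrix.mul_apply, smul_eq_mul, Finset.mul_sum]
  refine Finset.sum_congr rfl fun i _ => ?_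
  simp only [Finset.univ_unique, Finset.sum_singleton, ite_mul, one_mul, zero_mul,
    Finset.sum_ite_eq, Finset.mem_univ, if_true]
  ring

theorem cone_of_K2 {ρ₁ ρ₂ r₁ r₂ : ℕ} (h₁ : ρ₁ ≤ r₁) (h₁' : r₁ ≤ p) (h₂ : ρ₂ ≤ r₂)
    (h₂' : r₂ ≤ q) {T : Fin p × Fin q × Fin 2 → ℂ} (hT : T ∈ K2 (Fin p) (Fin q) ρ₁ ρ₂) :
    (fun x => T (co p q x)) ∈ Cone ![p, q, 2] ![r₁, r₂, 2] := by
  obtain ⟨C, R, G, h⟩ := hT
  refine mem_cone (ρ₁ := ρ₁) (ρ₂ := ρ₂) (ρ₃ := 2) h₁ h₁' h₂ h₂' le_rfl le_rfl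
    (fun i a => C a i) (fun j b => R j b) (fun k z => if z = k then 1 else 0)
    (fun i j k => G k i j) fun x => ?_
  beta_reduce
  generalize co p q x = y
  obtain ⟨a, b, z⟩ := y
  have := congrFun (congrFun (h z) a) b
  change T (a, b, z) = _ at this
  rw [this, Matrix.mul_assoc, Matrix.mul_apply]
  refine Finset.sum_congr rfl fun i _ => ?_
  rw [Matrix.mul_apply, Finset.mul_sum]
  refine Finset.sum_congr rfl fun j _ => ?_
  rw [Finset.sum_eq_single z]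
  · simp only [if_true]; ring
  · intro k _ hk
    rw [if_neg (fun h => hk h.symm)]; ring
  · intro h; exact absurd (Finset.mem_univ _) h

/-- From the cone to a Tucker form. -/
theorem tucker_of_cone {r₁ r₂ r₃ : ℕ}
    {T : (∀ i : Fin 3, Fin ((![p, q, 2] : Fin 3 → ℕ) i)) → ℂ}
    (hT : T ∈ Cone ![p, q, 2] ![r₁, r₂, r₃]) :
    ∃ (C : Fin r₁ → Fin p → ℂ) (R : Fin r₂ → Fin q → ℂ) (D : Fin r₃ → Fin 2 → ℂ)
      (G : Fin r₁ → Fin r₂ → Fin r₃ → ℂ),
      ∀ x, T x = ∑ i, ∑ j, ∑ k,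
        G i j k * (C i (co p q x).1 * R j (co p q x).2.1 * D k (co p q x).2.2) := by
  obtain ⟨A, hA, hT⟩ := hT
  have key : ∀ {k r : ℕ} (A : Submodule ℂ (Fin k → ℂ)), finrank ℂ A = r →
      ∃ C : Fin r → Fin k → ℂ, ∀ v ∈ A, ∃ t : Fin r → ℂ, ∀ a, v a = ∑ i, t i * C i a := by
    intro k r A hA
    set b := Module.finBasisOfFinrankEq ℂ A hA
    refine ⟨fun i => (b i : Fin k → ℂ), fun v hv => ⟨fun i => b.repr ⟨v, hv⟩ i, fun a => ?_⟩⟩
    have h1 := b.sum_repr ⟨v, hv⟩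
    have h2 := congrArg (fun w : A => (w : Fin k → ℂ) a) h1
    simp only [Submodule.coe_sum, Submodule.coe_smul, Finset.sum_apply, Pi.smul_apply,
      smul_eq_mul] at h2
    exact h2.symm
  obtain ⟨C, hC⟩ := key (A 0) (hA 0)
  obtain ⟨R, hR⟩ := key (A 1) (hA 1)
  obtain ⟨D, hD⟩ := key (A 2) (hA 2)
  refine ⟨C, R, D, ?_⟩
  induction hT using Submodule.span_induction with
  | mem S hS =>
    obtain ⟨v, hv, rfl⟩ := hS
    obtain ⟨s, hs⟩ := hC (v 0) (hv 0)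
    obtain ⟨t, ht⟩ := hR (v 1) (hv 1)
    obtain ⟨u, hu⟩ := hD (v 2) (hv 2)
    refine ⟨fun i j k => s i * t j * u k, fun x => ?_⟩
    have e1 : v 0 (x 0) = ∑ i, s i * C i (co p q x).1 := hs _
    have e2 : v 1 (x 1) = ∑ i, t i * R i (co p q x).2.1 := ht _
    have e3 : v 2 (x 2) = ∑ i, u i * D i (co p q x).2.2 := hu _
    rw [dec, Fin.prod_univ_three]
    refine (congrArg₂ (· * ·) (congrArg₂ (· * ·) e1 e2) e3).trans ?_
    beta_reduce
    generalize co p q x = y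
    obtain ⟨a, b, z⟩ := y
    rw [Finset.sum_mul_sum, Finset.sum_mul]
    refine Finset.sum_congr rfl fun i _ => ?_
    rw [Finset.sum_mul]
    refine Finset.sum_congr rfl fun j _ => ?_
    rw [Finset.mul_sum]
    refine Finset.sum_congr rfl fun k _ => ?_
    ring
  | zero => exact ⟨fun _ _ _ => 0, fun x => by simp⟩
  | add S S' _ _ h1 h2 =>
    obtain ⟨G, hG⟩ := h1
    obtain ⟨G', hG'⟩ := h2
    refine ⟨fun i j k => G i j k + G' i j k, fun x => ?_⟩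
    rw [Pi.add_apply, hG, hG']
    simp only [add_mul, Finset.sum_add_distrib]
  | smul c S _ h1 =>
    obtain ⟨G, hG⟩ := h1
    refine ⟨fun i j k => c * G i j k, fun x => ?_⟩
    rw [Pi.smul_apply, hG, smul_eq_mul]
    simp only [Finset.mul_sum, mul_assoc]

theorem K2_of_cone {r₁ r₂ : ℕ} {T : (∀ i : Fin 3, Fin ((![p, q, 2] : Fin 3 → ℕ) i)) → ℂ}
    (hT : T ∈ Cone ![p, q, 2] ![r₁, r₂, 2]) :
    (fun y => T (oc p q y)) ∈ K2 (Fin p) (Fin q) r₁ r₂ := by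
  obtain ⟨C, R, D, G, h⟩ := tucker_of_cone hT
  refine ⟨Matrix.of fun a i => C i a, Matrix.of fun j b => R j b,
    fun z => Matrix.of fun i j => ∑ k, G i j k * D k z, fun z => ?_⟩
  ext a b
  show T (oc p q (a, b, z)) = _
  rw [h, Matrix.mul_assoc, Matrix.mul_apply]
  refine Finset.sum_congr rfl fun i _ => ?_
  rw [Matrix.mul_apply, Finset.mul_sum]
  refine Finset.sum_congr rfl fun j _ => ?_
  simp only [Matrix.of_apply, Finset.sum_mul, Finset.mul_sum]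
  refine Finset.sum_congr rfl fun k _ => ?_
  show G i j k * (C i a * R j b * D k z) = _
  ring

theorem K1_of_cone {r₁ r₂ : ℕ} {T : (∀ i : Fin 3, Fin ((![p, q, 2] : Fin 3 → ℕ) i)) → ℂ}
    (hT : T ∈ Cone ![p, q, 2] ![r₁, r₂, 1]) :
    (fun y => T (oc p q y)) ∈ K1 (Fin p) (Fin q) (min r₁ r₂) := by
  obtain ⟨C, R, D, G, h⟩ := tucker_of_cone hT
  rcases le_total r₁ r₂ with hle | hle
  · rw [min_eq_left hle]
    refine ⟨Matrix.of fun a i => C i a, Matrix.of fun i b => ∑ j, G i j 0 * R j b,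
      fun z => D 0 z, fun z => ?_⟩
    ext a b
    show T (oc p q (a, b, z)) = _
    rw [h, Matrix.smul_apply, Matrix.mul_apply, smul_eq_mul, Finset.mul_sum]
    refine Finset.sum_congr rfl fun i _ => ?_
    simp only [Matrix.of_apply, Finset.univ_unique, Finset.sum_singleton, Finset.mul_sum]
    refine Finset.sum_congr rfl fun j _ => ?_
    show G i j 0 * (C i a * R j b * D 0 z) = _
    ring
  · rw [min_eq_right hle]
    refine ⟨Matrix.of fun a j => ∑ i, G i j 0 * C i a, Matrix.of fun j b => R j b,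
      fun z => D 0 z, fun z => ?_⟩
    ext a b
    show T (oc p q (a, b, z)) = _
    rw [h, Matrix.smul_apply, Matrix.mul_apply, smul_eq_mul, Finset.mul_sum, Finset.sum_comm]
    refine Finset.sum_congr rfl fun j _ => ?_
    simp only [Matrix.of_apply, Finset.univ_unique, Finset.sum_singleton, Finset.sum_mul,
      Finset.mul_sum]
    refine Finset.sum_congr rfl fun i _ => ?_
    show G i j 0 * (C i a * R j b * D 0 z) = _
    ring

end three

/-- Density is transported along a map of coordinates. -/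
theorem FillSet.transfer {σ τ : Type*} {S : Set (σ → ℂ)} {S' : Set (τ → ℂ)} (e : σ → τ)
    (he : Function.Injective e) (h : ∀ T ∈ S', (fun x => T (e x)) ∈ S) (hS : FillSet S') :
    FillSet S := by
  intro F hF
  apply MvPolynomial.rename_injective _ he
  rw [map_zero]
  apply hS
  intro T hT
  rw [MvPolynomial.eval_rename]
  exact hF _ (h T hT)

theorem sums_transfer {σ τ : Type*} {K : Set (σ → ℂ)} {K' : Set (τ → ℂ)} {s : ℕ} (e : σ → τ)
    (h : ∀ T ∈ K', (fun x => T (e x)) ∈ K) : ∀ T ∈ SumS K' s, (fun x => T (e x)) ∈ SumS K s := by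
  rintro T ⟨S, hS, rfl⟩
  refine ⟨fun j x => S j (e x), fun j => h _ (hS j), ?_⟩
  funext x
  simp only [Finset.sum_apply]

theorem co_injective {p q : ℕ} : Function.Injective (co p q) := by
  intro x y h
  rw [← oc_co x, ← oc_co y, h]

theorem oc_injective {p q : ℕ} : Function.Injective (oc p q) := by
  intro x y h
  rw [← co_oc x, ← co_oc y, h]

end Pool.Agent.H41.Pen
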