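import Pool.Agent.H41.Pen.Basic

/-!
Lower bounds.
-/

set_option autoImplicit false

namespace Pool.Agent.H41.Pen

open Finset

/-- A matrix which factors through `ρ`. -/
def Fac {A Γ : Type*} (N : A → Γ → ℂ) (ρ : ℕ) : Prop :=
  ∃ (C : Matrix A (Fin ρ) ℂ) (H : Matrix (Fin ρ) Γ ℂ), ∀ a g, N a g = (C * H) a g

theorem Fac.of_type {A Γ κ : Type*} [Fintype κ] {N : A → Γ → ℂ} {ρ : ℕ}
    (hκ : Fintype.card κ = ρ) (C : Matrix A κ ℂ) (H : Matrix κ Γ ℂ)
    (h : ∀ a g, N a g = (C * H) a g) : Fac N ρ := by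
  classical
  set e := Fintype.equivFinOfCardEq hκ
  refine ⟨C.submatrix id e.symm, H.submatrix e.symm id, fun a g => ?_⟩
  rw [Matrix.submatrix_mul_equiv, h]
  rfl

theorem Fac.transpose {A Γ : Type*} {N : A → Γ → ℂ} {ρ : ℕ} (h : Fac N ρ) :
    Fac (fun g a => N a g) ρ := by
  obtain ⟨C, H, h⟩ := h
  refine ⟨H.transpose, C.transpose, fun g a => ?_⟩
  beta_reduce
  rw [← Matrix.transpose_mul, Matrix.transpose_apply, h]

/-- Vanishing of the minors of a flattening. -/
theorem not_fill_of_flat {σ A Γ : Type*} [Fintype A] [DecidableEq A] (idx : A → Γ → σ)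
    (hidx : ∀ a g a' g', idx a g = idx a' g' → a = a' ∧ g = g') (ι : A → Γ)
    (hι : Function.Injective ι) {K : Set (σ → ℂ)} {ρ s : ℕ}
    (hK : ∀ T ∈ K, Fac (fun a g => T (idx a g)) ρ) (hlt : s * ρ < Fintype.card A) :
    ¬ FillSet (SumS K s) := by
  classical
  intro hfill
  set P : MvPolynomial σ ℂ := (Matrix.of fun a a' : A =>
    (MvPolynomial.X (idx a (ι a')) : MvPolynomial σ ℂ)).det with hP
  have heval : ∀ T : σ → ℂ, MvPolynomial.eval T P =
      (Matrix.of fun a a' : A => T (idx a (ι a'))).det := by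
    intro T
    rw [hP, RingHom.map_det]
    congr 1
    ext b x
    simp
  have hP0 : P = 0 := by
    apply hfill
    rintro T ⟨S, hS, rfl⟩
    rw [heval]
    by_contra hne
    choose C H hCH using fun j => hK (S j) (hS j)
    set N : Matrix A A ℂ := Matrix.of fun a a' : A => (∑ j, S j) (idx a (ι a')) with hN
    have hfac : N = (Matrix.of fun (a : A) (x : Fin s × Fin ρ) => C x.1 a x.2) *
        (Matrix.of fun (x : Fin s × Fin ρ) (a' : A) => H x.1 x.2 (ι a')) := by
      ext a a'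
      rw [hN, Matrix.of_apply, Finset.sum_apply, Matrix.mul_apply, Fintype.sum_prod_type]
      refine Finset.sum_congr rfl fun j _ => ?_
      have := hCH j a (ι a')
      beta_reduce at this
      rw [this, Matrix.mul_apply]
      rfl
    have hrank : N.rank = Fintype.card A := by
      apply Matrix.rank_of_isUnit
      rw [Matrix.isUnit_iff_isUnit_det]
      exact isUnit_iff_ne_zero.mpr hne
    have h1 : N.rank ≤ Fintype.card (Fin s × Fin ρ) := by
      rw [hfac]
      exact (Matrix.rank_mul_le_left _ _).trans (Matrix.rank_le_card_width _)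
    rw [hrank, Fintype.card_prod, Fintype.card_fin, Fintype.card_fin] at h1
    omega
  have h1 := heval (fun x => if ∃ a, x = idx a (ι a) then 1 else 0)
  rw [hP0, map_zero] at h1
  have h2 : (Matrix.of fun a a' : A => (if ∃ b, idx a (ι a') = idx b (ι b) then (1 : ℂ) else 0)) =
      1 := by
    ext a a'
    rw [Matrix.of_apply, Matrix.one_apply]
    congr 1
    apply propext
    constructor
    · rintro ⟨b, hb⟩
      obtain ⟨h3, h4⟩ := hidx _ _ _ _ hb
      rw [h3, hι h4]
    · rintro rfl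
      exact ⟨a, rfl⟩
  rw [h2, Matrix.det_one] at h1
  exact zero_ne_one h1

section

variable {α β : Type}

theorem fac_row_K1 {L : ℕ} {T : α × β × Fin 2 → ℂ} (hT : T ∈ K1 α β L) :
    Fac (fun a (g : β × Fin 2) => T (a, g.1, g.2)) L := by
  obtain ⟨C, R, c, h⟩ := hT
  refine ⟨C, Matrix.of fun l g => c g.2 * R l g.1, fun a g => ?_⟩
  have := congrFun (congrFun (h g.2) a) g.1
  change T (a, g.1, g.2) = _ at this
  beta_reduce
  rw [this, Matrix.smul_apply, Matrix.mul_apply, Matrix.mul_apply, smul_eq_mul, Finset.mul_sum]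
  refine Finset.sum_congr rfl fun l _ => ?_
  rw [Matrix.of_apply]; ring

theorem fac_col_K1 {L : ℕ} {T : α × β × Fin 2 → ℂ} (hT : T ∈ K1 α β L) :
    Fac (fun b (g : α × Fin 2) => T (g.1, b, g.2)) L := by
  obtain ⟨C, R, c, h⟩ := hT
  refine ⟨R.transpose, Matrix.of fun l g => c g.2 * C g.1 l, fun b g => ?_⟩
  have := congrFun (congrFun (h g.2) g.1) b
  change T (g.1, b, g.2) = _ at this
  beta_reduce
  rw [this, Matrix.smul_apply, Matrix.mul_apply, Matrix.mul_apply, smul_eq_mul, Finset.mul_sum]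
  refine Finset.sum_congr rfl fun l _ => ?_
  rw [Matrix.of_apply, Matrix.transpose_apply]; ring

theorem fac_row_K2 {r₁ r₂ : ℕ} {T : α × β × Fin 2 → ℂ} (hT : T ∈ K2 α β r₁ r₂) :
    Fac (fun a (g : β × Fin 2) => T (a, g.1, g.2)) (min r₁ (2 * r₂)) := by
  obtain ⟨C, R, G, h⟩ := hT
  rcases le_total r₁ (2 * r₂) with hle | hle
  · rw [min_eq_left hle]
    refine ⟨C, Matrix.of fun i g => (G g.2 * R) i g.1, fun a g => ?_⟩
    have := congrFun (congrFun (h g.2) a) g.1
    change T (a, g.1, g.2) = _ at this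
    beta_reduce
    rw [this, Matrix.mul_assoc]
    rfl
  · rw [min_eq_right hle]
    refine Fac.of_type (κ := Fin 2 × Fin r₂) (by simp)
      (Matrix.of fun a x => (C * G x.1) a x.2)
      (Matrix.of fun x g => if x.1 = g.2 then R x.2 g.1 else 0) fun a g => ?_
    have := congrFun (congrFun (h g.2) a) g.1
    change T (a, g.1, g.2) = _ at this
    beta_reduce
    rw [this, Matrix.mul_apply, Matrix.mul_apply, Fintype.sum_prod_type,
      Finset.sum_eq_single g.2]
    · refine Finset.sum_congr rfl fun j _ => ?_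
      simp
    · intro x _ hx
      simp [hx]
    · intro h; exact absurd (Finset.mem_univ _) h

theorem fac_col_K2 {r₁ r₂ : ℕ} {T : α × β × Fin 2 → ℂ} (hT : T ∈ K2 α β r₁ r₂) :
    Fac (fun b (g : α × Fin 2) => T (g.1, b, g.2)) (min r₂ (2 * r₁)) := by
  obtain ⟨C, R, G, h⟩ := hT
  have hT' : (fun x : β × α × Fin 2 => T (x.2.1, x.1, x.2.2)) ∈ K2 β α r₂ r₁ := by
    refine ⟨R.transpose, C.transpose, fun z => (G z).transpose, fun z => ?_⟩
    rw [← Matrix.transpose_mul, ← Matrix.transpose_mul, ← Matrix.mul_assoc, ← h z]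
    rfl
  exact fac_row_K2 hT'

end

/-- The flattening bounds. -/
theorem not_fill_row {p q : ℕ} (hpq : p ≤ q) {K : Set (Fin p × Fin q × Fin 2 → ℂ)}
    {ρ s : ℕ}
    (hK : ∀ T ∈ K, Fac (fun a (g : Fin q × Fin 2) => T (a, g.1, g.2)) ρ) (hlt : s * ρ < p) :
    ¬ FillSet (SumS K s) := by
  refine not_fill_of_flat (fun a (g : Fin q × Fin 2) => (a, g.1, g.2)) ?_
    (fun a => (Fin.castLE hpq a, 0)) ?_ hK (by simpa using hlt)
  · rintro a ⟨b, z⟩ a' ⟨b', z'⟩ h
    simp only [Prod.mk.injEq] at h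
    exact ⟨h.1, Prod.ext h.2.1 h.2.2⟩
  · intro a a' h
    exact Fin.castLE_injective hpq (congrArg Prod.fst h)

theorem not_fill_col {p q : ℕ} {K : Set (Fin p × Fin q × Fin 2 → ℂ)}
    {ρ s : ℕ}
    (hK : ∀ T ∈ K, Fac (fun b (g : Fin p × Fin 2) => T (g.1, b, g.2)) ρ)
    (hlt : s * ρ < min q (2 * p)) :
    ¬ FillSet (SumS K s) := by
  rcases le_total q (2 * p) with hle | hle
  · rw [min_eq_left hle] at hlt
    have hcard : Fintype.card (Fin q) ≤ Fintype.card (Fin p × Fin 2) := by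
      simp only [Fintype.card_fin, Fintype.card_prod]; omega
    obtain ⟨⟨ι, hι⟩⟩ := Function.Embedding.nonempty_of_card_le hcard
    refine not_fill_of_flat (fun (b : Fin q) (g : Fin p × Fin 2) => (g.1, b, g.2)) ?_
      ι hι hK (by simpa using hlt)
    rintro b ⟨a, z⟩ b' ⟨a', z'⟩ h
    simp only [Prod.mk.injEq] at h
    exact ⟨h.2.1, Prod.ext h.1 h.2.2⟩
  · rw [min_eq_right hle] at hlt
    have hcard : Fintype.card (Fin p × Fin 2) ≤ Fintype.card (Fin q) := by
      simp only [Fintype.card_fin, Fintype.card_prod]; omega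
    obtain ⟨⟨ι, hι⟩⟩ := Function.Embedding.nonempty_of_card_le hcard
    refine not_fill_of_flat (fun (g : Fin p × Fin 2) (b : Fin q) => (g.1, b, g.2)) ?_
      ι hι (fun T hT => (hK T hT).transpose) (by
        simp only [Fintype.card_fin, Fintype.card_prod]; omega)
    rintro ⟨a, z⟩ b ⟨a', z'⟩ b' h
    simp only [Prod.mk.injEq] at h
    exact ⟨Prod.ext h.1 h.2.2, h.2.1⟩

end Pool.Agent.H41.Pen
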