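import Pool.Agent.H41.Pen.Lower

/-!
The resultant lower bound: pencils with a row-rank drop.
-/

set_option autoImplicit false

namespace Pool.Agent.H41.Pen

open Finset

/-- The matrix of `w ↦ T(s,t) w`, forms of degree `p - 1` to forms of degree `p`. -/
def syl {R : Type*} [CommRing R] (p : ℕ) (A B : Fin p → Fin (p + 1) → R) :
    Matrix (Fin p × Fin (p + 1)) (Fin p × Fin (p + 1)) R :=
  Matrix.of fun x y => (if x.2 = y.1.castSucc then A x.1 y.2 else 0) +
    (if x.2 = y.1.succ then B x.1 y.2 else 0)

theorem syl_det_zero {p : ℕ} {A B : Fin p → Fin (p + 1) → ℂ} {s t : ℂ} (hst : s ≠ 0 ∨ t ≠ 0)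
    {v : Fin p → ℂ} (hv : v ≠ 0) (h : ∀ b, ∑ a, v a * (s * A a b + t * B a b) = 0) :
    (syl p A B).det = 0 := by
  rw [← Matrix.exists_vecMul_eq_zero_iff]
  refine ⟨fun x => v x.1 * (s ^ (p - (x.2 : ℕ)) * t ^ (x.2 : ℕ)), ?_, ?_⟩
  · obtain ⟨a, ha⟩ : ∃ a, v a ≠ 0 := Function.ne_iff.mp hv
    intro h0
    rcases hst with hs | ht
    · have := congrFun h0 (a, 0)
      simp only [Fin.val_zero, pow_zero, mul_one, Nat.sub_zero, Pi.zero_apply] at this
      exact (mul_ne_zero ha (pow_ne_zero _ hs)) this
    · have := congrFun h0 (a, Fin.last p)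
      simp only [Fin.val_last, Nat.sub_self, pow_zero, one_mul, Pi.zero_apply] at this
      exact (mul_ne_zero ha (pow_ne_zero _ ht)) this
  · funext ⟨m, b⟩
    simp only [Matrix.vecMul, dotProduct, syl, Matrix.of_apply, Pi.zero_apply,
      Fintype.sum_prod_type, mul_add, mul_ite, mul_zero, Finset.sum_add_distrib,
      Finset.sum_ite_eq', Finset.mem_univ, if_true]
    have e1 : ∀ a : Fin p, v a * (s ^ (p - (m.castSucc : ℕ)) * t ^ (m.castSucc : ℕ)) * A a b +
        v a * (s ^ (p - (m.succ : ℕ)) * t ^ (m.succ : ℕ)) * B a b =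
        s ^ (p - 1 - (m : ℕ)) * t ^ (m : ℕ) * (v a * (s * A a b + t * B a b)) := by
      intro a
      have h1 : p - (m : ℕ) = (p - 1 - (m : ℕ)) + 1 := by have := m.isLt; omega
      have h2 : p - ((m : ℕ) + 1) = p - 1 - (m : ℕ) := by omega
      rw [Fin.val_castSucc, Fin.val_succ, h1, h2, pow_succ, pow_succ]
      ring
    rw [← Finset.sum_add_distrib, Finset.sum_congr rfl fun a _ => e1 a, ← Finset.mul_sum, h,
      mul_zero]

theorem syl_det_ne {p : ℕ} :
    (syl p (fun a b => if b = a.castSucc then (1 : ℂ) else 0)
      (fun a b => if b = a.succ then (1 : ℂ) else 0)).det ≠ 0 := by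
  intro hdet
  rw [← Matrix.exists_mulVec_eq_zero_iff] at hdet
  obtain ⟨u, hu, h⟩ := hdet
  apply hu
  set U : ℕ → ℕ → ℂ := fun m b => if hm : m < p ∧ b < p + 1 then u (⟨m, hm.1⟩, ⟨b, hm.2⟩) else 0
    with hU
  have heq : ∀ (a l : ℕ), a < p → l ≤ p →
      U l a + (if 1 ≤ l then U (l - 1) (a + 1) else 0) = 0 := by
    intro a l ha hl
    have h1 := congrFun h (⟨a, ha⟩, ⟨l, by omega⟩)
    simp only [Matrix.mulVec, dotProduct, syl, Matrix.of_apply, Pi.zero_apply,
      Fintype.sum_prod_type, add_mul, ite_mul, zero_mul, one_mul, Finset.sum_add_distrib] at h1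
    have h2 : (∑ m : Fin p, ∑ b : Fin (p + 1), (if (⟨l, by omega⟩ : Fin (p + 1)) = m.castSucc then
        (if b = (⟨a, ha⟩ : Fin p).castSucc then u (m, b) else 0) else 0)) = U l a := by
      by_cases hlp : l < p
      · rw [Finset.sum_eq_single (⟨l, hlp⟩ : Fin p)]
        · have : (⟨l, by omega⟩ : Fin (p + 1)) = (⟨l, hlp⟩ : Fin p).castSucc := rfl
          simp only [this, if_true, Finset.sum_ite_eq', Finset.mem_univ]
          rw [hU]
          simp only
          rw [dif_pos ⟨hlp, by omega⟩]
          rfl
        · intro m _ hm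
          have : ¬ (⟨l, by omega⟩ : Fin (p + 1)) = m.castSucc := by
            intro h3
            apply hm
            apply Fin.ext
            have := congrArg Fin.val h3
            simpa using this.symm
          simp [this]
        · intro h3; exact absurd (Finset.mem_univ _) h3
      · rw [hU]
        simp only
        rw [dif_neg (fun h3 => hlp h3.1)]
        apply Finset.sum_eq_zero
        intro m _
        have : ¬ (⟨l, by omega⟩ : Fin (p + 1)) = m.castSucc := by
          intro h3
          have := congrArg Fin.val h3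
          simp only [Fin.val_castSucc] at this
          have := m.isLt
          omega
        simp [this]
    have h3 : (∑ m : Fin p, ∑ b : Fin (p + 1), (if (⟨l, by omega⟩ : Fin (p + 1)) = m.succ then
        (if b = (⟨a, ha⟩ : Fin p).succ then u (m, b) else 0) else 0)) =
        if 1 ≤ l then U (l - 1) (a + 1) else 0 := by
      by_cases hlp : 1 ≤ l
      · rw [if_pos hlp, Finset.sum_eq_single (⟨l - 1, by omega⟩ : Fin p)]
        · have : (⟨l, by omega⟩ : Fin (p + 1)) = (⟨l - 1, by omega⟩ : Fin p).succ := by
            apply Fin.ext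
            simp only [Fin.val_succ]
            omega
          simp only [this, if_true, Finset.sum_ite_eq', Finset.mem_univ]
          rw [hU]
          simp only
          rw [dif_pos ⟨by omega, by omega⟩]
          rfl
        · intro m _ hm
          have : ¬ (⟨l, by omega⟩ : Fin (p + 1)) = m.succ := by
            intro h3
            apply hm
            apply Fin.ext
            have := congrArg Fin.val h3
            simp only [Fin.val_succ] at this
            show (m : ℕ) = l - 1
            omega
          simp [this]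
        · intro h3; exact absurd (Finset.mem_univ _) h3
      · rw [if_neg hlp]
        apply Finset.sum_eq_zero
        intro m _
        have : ¬ (⟨l, by omega⟩ : Fin (p + 1)) = m.succ := by
          intro h3
          have := congrArg Fin.val h3
          simp only [Fin.val_succ] at this
          omega
        simp [this]
    rw [h2, h3] at h1
    exact h1
  have hout : ∀ m b, (p ≤ m ∨ p < b) → U m b = 0 := by
    intro m b hmb
    rw [hU]
    simp only
    rw [dif_neg]
    rintro ⟨h1, h2⟩
    omega
  have low : ∀ m b, m + b < p → U m b = 0 := by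
    intro m
    induction m with
    | zero =>
      intro b hb
      have := heq b 0 (by omega) (by omega)
      simpa using this
    | succ m ih =>
      intro b hb
      have := heq b (m + 1) (by omega) (by omega)
      rw [if_pos (by omega), Nat.add_sub_cancel, ih (b + 1) (by omega), add_zero] at this
      exact this
  have high : ∀ k m b, m + k = p → p ≤ m + b → U m b = 0 := by
    intro k
    induction k with
    | zero =>
      intro m b hm _
      exact hout m b (Or.inl (by omega))
    | succ k ih =>
      intro m b hm hb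
      by_cases hbp : p < b
      · exact hout m b (Or.inr hbp)
      · have := heq (b - 1) (m + 1) (by omega) (by omega)
        rw [if_pos (by omega), Nat.add_sub_cancel, show b - 1 + 1 = b by omega,
          ih (m + 1) (b - 1) (by omega) (by omega), zero_add] at this
        exact this
  funext ⟨m, b⟩
  have h1 : u (m, b) = U m b := by
    rw [hU]
    simp only
    rw [dif_pos ⟨m.isLt, b.isLt⟩]
  rw [h1]
  have hm := m.isLt
  by_cases hmb : (m : ℕ) + b < p
  · exact low _ _ hmb
  · exact high (p - m) _ _ (by omega) (by omega)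

/-- The resultant bound. -/
theorem not_fill_syl {α β : Type} {p : ℕ} (f : Fin p → α) (hf : Function.Injective f)
    (g : Fin (p + 1) → β) (hg : Function.Injective g) {L t : ℕ} (hlt : t * L < p) :
    ¬ FillSet (SumS (K1 α β L) (t + 1)) := by
  classical
  intro hfill
  set P : MvPolynomial (α × β × Fin 2) ℂ := (syl p
    (fun a b => (MvPolynomial.X (f a, g b, 0) : MvPolynomial (α × β × Fin 2) ℂ))
    (fun a b => MvPolynomial.X (f a, g b, 1))).det with hP
  have heval : ∀ T : α × β × Fin 2 → ℂ, MvPolynomial.eval T P =
      (syl p (fun a b => T (f a, g b, 0)) (fun a b => T (f a, g b, 1))).det := by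
    intro T
    rw [hP, RingHom.map_det]
    congr 1
    ext x y
    simp only [syl, RingHom.mapMatrix_apply, Matrix.map_apply, Matrix.of_apply, map_add]
    split_ifs <;> simp
  have hP0 : P = 0 := by
    apply hfill
    rintro T ⟨S, hS, rfl⟩
    rw [heval]
    choose C R c hc using hS
    -- the point where the first summand vanishes
    obtain ⟨x, y, hxy, h0⟩ : ∃ x y : ℂ, (x ≠ 0 ∨ y ≠ 0) ∧ x * c 0 0 + y * c 0 1 = 0 := by
      by_cases h : c 0 0 = 0 ∧ c 0 1 = 0
      · exact ⟨1, 0, Or.inl one_ne_zero, by rw [h.1]; ring⟩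
      · refine ⟨c 0 1, - c 0 0, ?_, by ring⟩
        by_cases h1 : c 0 1 = 0
        · exact Or.inr (neg_ne_zero.mpr fun h2 => h ⟨h2, h1⟩)
        · exact Or.inl h1
    -- a vector orthogonal to the other column spaces
    obtain ⟨v, hv, hv0⟩ : ∃ v : Fin p → ℂ, v ≠ 0 ∧
        ∀ (j : Fin t) (l : Fin L), ∑ a, v a * C j.succ (f a) l = 0 := by
      set φ : (Fin p → ℂ) →ₗ[ℂ] (Fin t × Fin L → ℂ) :=
        Matrix.mulVecLin (Matrix.of fun (z : Fin t × Fin L) (a : Fin p) => C z.1.succ (f a) z.2)
      have hker : LinearMap.ker φ ≠ ⊥ := by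
        apply LinearMap.ker_ne_bot_of_finrank_lt
        simpa using hlt
      obtain ⟨v, hvk, hv⟩ := (Submodule.ne_bot_iff _).mp hker
      refine ⟨v, hv, fun j l => ?_⟩
      have := congrFun (LinearMap.mem_ker.mp hvk) (j, l)
      simp only [φ, Matrix.mulVecLin_apply, Matrix.mulVec, dotProduct, Matrix.of_apply,
        Pi.zero_apply] at this
      rw [← this]
      exact Finset.sum_congr rfl fun a _ => mul_comm _ _
    refine syl_det_zero hxy hv fun b => ?_
    have hslice : ∀ (j : Fin (t + 1)) (a : Fin p) (z : Fin 2),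
        S j (f a, g b, z) = c j z * ∑ l, C j (f a) l * R j l (g b) := by
      intro j a z
      have := congrFun (congrFun (hc j z) (f a)) (g b)
      change S j (f a, g b, z) = _ at this
      rw [this, Matrix.smul_apply, Matrix.mul_apply, smul_eq_mul]
    have h1 : ∀ a, x * (∑ j, S j) (f a, g b, 0) + y * (∑ j, S j) (f a, g b, 1) =
        ∑ j : Fin t, (x * c j.succ 0 + y * c j.succ 1) *
          ∑ l, C j.succ (f a) l * R j.succ l (g b) := by
      intro a
      rw [Finset.sum_apply, Finset.sum_apply, Finset.mul_sum, Finset.mul_sum,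
        ← Finset.sum_add_distrib, Fin.sum_univ_succ, hslice, hslice]
      have : x * (c 0 0 * ∑ l, C 0 (f a) l * R 0 l (g b)) +
          y * (c 0 1 * ∑ l, C 0 (f a) l * R 0 l (g b)) = 0 := by
        linear_combination (∑ l, C 0 (f a) l * R 0 l (g b)) * h0
      rw [this, zero_add]
      refine Finset.sum_congr rfl fun j _ => ?_
      rw [hslice, hslice]; ring
    simp only [h1, Finset.mul_sum]
    rw [Finset.sum_comm]
    apply Finset.sum_eq_zero
    intro j _
    rw [Finset.sum_comm]
    apply Finset.sum_eq_zero
    intro l _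
    have : ∀ a, v a * ((x * c j.succ 0 + y * c j.succ 1) * (C j.succ (f a) l * R j.succ l (g b))) =
        ((x * c j.succ 0 + y * c j.succ 1) * R j.succ l (g b)) * (v a * C j.succ (f a) l) := by
      intro a; ring
    rw [Finset.sum_congr rfl fun a _ => this a, ← Finset.mul_sum, hv0, mul_zero]
  have h1 := heval (fun x => if ∃ a, (x = (f a, g a.castSucc, 0) ∨ x = (f a, g a.succ, 1)) then 1
    else 0)
  rw [hP0, map_zero] at h1
  apply syl_det_ne (p := p)
  refine Eq.trans ?_ h1.symm
  congr 1
  congr 1
  · funext a b
    congr 1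
    apply propext
    constructor
    · rintro rfl
      exact ⟨a, Or.inl rfl⟩
    · rintro ⟨a', h | h⟩
      · simp only [Prod.mk.injEq] at h
        rw [hf h.1, hg h.2.1]
      · simp only [Prod.mk.injEq] at h
        exact absurd h.2.2 (by decide)
  · funext a b
    congr 1
    apply propext
    constructor
    · rintro rfl
      exact ⟨a, Or.inr rfl⟩
    · rintro ⟨a', h | h⟩
      · simp only [Prod.mk.injEq] at h
        exact absurd h.2.2 (by decide)
      · simp only [Prod.mk.injEq] at h
        rw [hf h.1, hg h.2.1]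

end Pool.Agent.H41.Pen
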