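import Pool.Agent.H41.Pen.Square
import Pool.Agent.H41.Pen.Sylv
import Pool.Agent.H41.Pen.Bridge

/-!
Generic ranks of pencils with respect to subspace varieties.
-/

set_option autoImplicit false

namespace Pool.Agent.H41.Pen

open Finset Module

theorem exists_inj {α β : Type} [Fintype α] [Fintype β] (h : Fintype.card α ≤ Fintype.card β) :
    ∃ f : α → β, Function.Injective f := by
  obtain ⟨⟨f, hf⟩⟩ := Function.Embedding.nonempty_of_card_le h
  exact ⟨f, hf⟩

/-- Rectangular case, upper bound. -/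
theorem fill1_rect {α β : Type} [Fintype α] [Fintype β] {L t : ℕ}
    (hp : Fintype.card α ≤ t * L) (hq : Fintype.card β ≤ (t + 1) * L) :
    FillSet (SumS (K1 α β L) (t + 1)) := by
  classical
  obtain ⟨f, hf⟩ := exists_inj (α := α) (β := Fin L × Fin t) (by
    simp only [Fintype.card_prod, Fintype.card_fin]; rw [mul_comm]; exact hp)
  obtain ⟨g, hg⟩ := exists_inj (α := β) (β := (Fin L × Fin t) ⊕ Fin L) (by
    simp only [Fintype.card_sum, Fintype.card_prod, Fintype.card_fin]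
    calc Fintype.card β ≤ (t + 1) * L := hq
      _ = L * t + L := by ring)
  exact (stab_K1 L).mono f hf g hg (fill_K1 L t)

/-- Square case, upper bound. -/
theorem fill1_square {α β : Type} [Fintype α] [Fintype β] {L t : ℕ} (hL : 1 ≤ L)
    (hp : Fintype.card α ≤ t * L + 1) (hq : Fintype.card β ≤ t * L + 1) :
    FillSet (SumS (K1 α β L) (t + 1)) := by
  classical
  obtain ⟨L₀, rfl⟩ : ∃ L₀, L = L₀ + 1 := ⟨L - 1, by omega⟩
  have hc : Fintype.card (Fin (t + 1) ⊕ (Fin L₀ × Fin t)) = t * (L₀ + 1) + 1 := by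
    simp only [Fintype.card_sum, Fintype.card_prod, Fintype.card_fin]; ring
  obtain ⟨f, hf⟩ := exists_inj (α := α) (β := Fin (t + 1) ⊕ (Fin L₀ × Fin t)) (by rw [hc]; exact hp)
  obtain ⟨g, hg⟩ := exists_inj (α := β) (β := Fin (t + 1) ⊕ (Fin L₀ × Fin t)) (by rw [hc]; exact hq)
  exact (stab_K1 (L₀ + 1)).mono f hf g hg (fill_K1_square L₀ t)

/-- Third entry two, upper bound. -/
theorem fill2 {α β : Type} [Fintype α] [Fintype β] {ρ₁ ρ₂ s : ℕ}
    (hpq : Fintype.card α ≤ Fintype.card β)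
    (hp : Fintype.card α ≤ s * ρ₁) (hq : Fintype.card β ≤ s * ρ₂) :
    FillSet (SumS (K2 α β (min ρ₁ ρ₂) ρ₂) s) := by
  classical
  rcases Nat.lt_or_ge ρ₁ ρ₂ with hlt | hge
  · rw [min_eq_left hlt.le]
    obtain ⟨n, rfl⟩ : ∃ n, ρ₂ = ρ₁ + n := ⟨ρ₂ - ρ₁, by omega⟩
    have hn : 0 < n := by omega
    obtain ⟨f, hf⟩ := exists_inj (α := α) (β := Fin s × Fin ρ₁) (by
      simp only [Fintype.card_prod, Fintype.card_fin]; exact hp)
    obtain ⟨g, hg⟩ := exists_inj (α := β) (β := (Fin s × Fin ρ₁) ⊕ (Fin s × Fin n)) (by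
      simp only [Fintype.card_sum, Fintype.card_prod, Fintype.card_fin]
      rw [← mul_add]; exact hq)
    exact (stab_K2 ρ₁ (ρ₁ + n)).mono f hf g hg (fill_K2 s ρ₁ n hn)
  · rw [min_eq_right hge]
    obtain ⟨f, hf⟩ := exists_inj (α := α) (β := Fin s × Fin ρ₂) (by
      simp only [Fintype.card_prod, Fintype.card_fin]; exact hpq.trans hq)
    obtain ⟨g, hg⟩ := exists_inj (α := β) (β := Fin s × Fin ρ₂) (by
      simp only [Fintype.card_prod, Fintype.card_fin]; exact hq)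
    exact (stab_K2 ρ₂ ρ₂).mono f hf g hg (fill_K2_square s ρ₂)

section

variable {p q r₁ r₂ : ℕ}

theorem cone1_iff (hr₁ : r₁ ≤ p) (hr₂ : r₂ ≤ q) (s : ℕ) :
    FillSet (SumS (Cone ![p, q, 2] ![r₁, r₂, 1]) s) ↔
      FillSet (SumS (K1 (Fin p) (Fin q) (min r₁ r₂)) s) := by
  constructor
  · exact FillSet.transfer (oc p q) oc_injective
      (sums_transfer (oc p q) fun T hT => K1_of_cone hT)
  · exact FillSet.transfer (co p q) co_injective
      (sums_transfer (co p q) fun T hT =>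
        cone_of_K1 (min_le_left _ _) hr₁ (min_le_right _ _) hr₂ hT)

/-- Third entry one, `p < q`. -/
theorem fills_one_lt (hr₁ : 1 ≤ r₁) (hr₁p : r₁ ≤ p) (hr₂ : 1 ≤ r₂) (hr₂q : r₂ ≤ q) (hpq : p < q)
    (s : ℕ) : FillSet (SumS (Cone ![p, q, 2] ![r₁, r₂, 1]) s) ↔
      ∃ t, s = t + 1 ∧ p ≤ t * min r₁ r₂ ∧ min q (2 * p) ≤ (t + 1) * min r₁ r₂ := by
  rw [cone1_iff hr₁p hr₂q]
  constructor
  · intro h
    obtain ⟨t, rfl⟩ : ∃ t, s = t + 1 := by
      rcases Nat.eq_zero_or_pos s with rfl | hs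
      · exact absurd h (not_fill_row hpq.le (fun T hT => fac_row_K1 hT) (by omega))
      · exact ⟨s - 1, by omega⟩
    refine ⟨t, rfl, ?_, ?_⟩
    · by_contra hlt
      push Not at hlt
      obtain ⟨g, hg⟩ := exists_inj (α := Fin (p + 1)) (β := Fin q) (by simpa using hpq)
      exact not_fill_syl (p := p) id Function.injective_id g hg hlt h
    · by_contra hlt
      push Not at hlt
      exact not_fill_col (fun T hT => fac_col_K1 hT) hlt h
  · rintro ⟨t, rfl, hp, hq⟩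
    rcases le_total q (2 * p) with hle | hle
    · rw [min_eq_left hle] at hq
      exact fill1_rect (by simpa using hp) (by simpa using hq)
    · rw [min_eq_right hle] at hq
      apply (stab_K1 (min r₁ r₂)).wide
      refine fill1_rect (by simpa using hp) ?_
      simp only [Fintype.card_prod, Fintype.card_fin]
      rw [mul_comm]; exact hq

/-- Third entry one, `p = q`. -/
theorem fills_one_eq (hr₁ : 1 ≤ r₁) (hr₁p : r₁ ≤ p) (hr₂ : 1 ≤ r₂) (hr₂q : r₂ ≤ p)
    (s : ℕ) : FillSet (SumS (Cone ![p, p, 2] ![r₁, r₂, 1]) s) ↔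
      ∃ t, s = t + 1 ∧ p - 1 ≤ t * min r₁ r₂ := by
  rw [cone1_iff hr₁p hr₂q]
  constructor
  · intro h
    obtain ⟨t, rfl⟩ : ∃ t, s = t + 1 := by
      rcases Nat.eq_zero_or_pos s with rfl | hs
      · exact absurd h (not_fill_row le_rfl (fun T hT => fac_row_K1 hT) (by omega))
      · exact ⟨s - 1, by omega⟩
    refine ⟨t, rfl, ?_⟩
    by_contra hlt
    push Not at hlt
    obtain ⟨f, hf⟩ := exists_inj (α := Fin (p - 1)) (β := Fin p) (by simp)
    obtain ⟨g, hg⟩ := exists_inj (α := Fin (p - 1 + 1)) (β := Fin p) (by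
      simp only [Fintype.card_fin]; omega)
    exact not_fill_syl (p := p - 1) f hf g hg hlt h
  · rintro ⟨t, rfl, hp⟩
    have hL : 1 ≤ min r₁ r₂ := le_min hr₁ hr₂
    refine fill1_square hL ?_ ?_ <;> simp only [Fintype.card_fin] <;> omega

/-- Third entry two. -/
theorem fills_two (hr₁ : 1 ≤ r₁) (hr₁p : r₁ ≤ p) (hr₂ : 1 ≤ r₂) (hr₂q : r₂ ≤ q) (hpq : p ≤ q)
    (s : ℕ) : FillSet (SumS (Cone ![p, q, 2] ![r₁, r₂, 2]) s) ↔
      p ≤ s * min r₁ (2 * r₂) ∧ min q (2 * p) ≤ s * min r₂ (2 * r₁) := by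
  constructor
  · intro h
    have h' : FillSet (SumS (K2 (Fin p) (Fin q) r₁ r₂) s) :=
      FillSet.transfer (oc p q) oc_injective
        (sums_transfer (oc p q) fun T hT => K2_of_cone hT) h
    refine ⟨?_, ?_⟩
    · by_contra hlt
      push Not at hlt
      exact not_fill_row hpq (fun T hT => fac_row_K2 hT) hlt h'
    · by_contra hlt
      push Not at hlt
      exact not_fill_col (fun T hT => fac_col_K2 hT) hlt h'
  · rintro ⟨hp, hq⟩
    have key : FillSet (SumS (K2 (Fin p) (Fin q)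
        (min (min r₁ (2 * r₂)) (min r₂ (2 * r₁))) (min r₂ (2 * r₁))) s) := by
      rcases le_total q (2 * p) with hle | hle
      · rw [min_eq_left hle] at hq
        exact fill2 (by simpa using hpq) (by simpa using hp) (by simpa using hq)
      · rw [min_eq_right hle] at hq
        apply (stab_K2 _ _).wide
        refine fill2 ?_ (by simpa using hp) ?_
        · simp only [Fintype.card_prod, Fintype.card_fin]; omega
        · simp only [Fintype.card_prod, Fintype.card_fin]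
          rw [mul_comm p 2]; exact hq
    refine FillSet.transfer (co p q) co_injective (sums_transfer (co p q) fun T hT => ?_) key
    exact cone_of_K2 ((min_le_left _ _).trans (min_le_left _ _)) hr₁p (min_le_left _ _) hr₂q hT

/-- The generic ranks. -/
theorem generic (hr₁ : 1 ≤ r₁) (hr₁p : r₁ ≤ p) (hr₂ : 1 ≤ r₂) (hr₂q : r₂ ≤ q) (hpq : p ≤ q) :
    IsLeast {s | FillSet (SumS (Cone ![p, q, 2] ![r₁, r₂, 1]) s)}
      (if p = q then 1 + (p - 1) ⌈/⌉ min r₁ r₂
        else max (1 + p ⌈/⌉ min r₁ r₂) (min q (2 * p) ⌈/⌉ min r₁ r₂)) ∧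
    IsLeast {s | FillSet (SumS (Cone ![p, q, 2] ![r₁, r₂, 2]) s)}
      (max (p ⌈/⌉ min r₁ (2 * r₂)) (min q (2 * p) ⌈/⌉ min r₂ (2 * r₁))) := by
  have hL : 0 < min r₁ r₂ := lt_min (by omega) (by omega)
  have hL1 : 0 < min r₁ (2 * r₂) := lt_min (by omega) (by omega)
  have hL2 : 0 < min r₂ (2 * r₁) := lt_min (by omega) (by omega)
  have hcd : ∀ (a L : ℕ), 0 < L → a ≤ (a ⌈/⌉ L) * L := fun a L h => by
    have := (ceilDiv_le_iff_le_mul h (b := a) (c := a ⌈/⌉ L)).mp le_rfl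
    rwa [mul_comm] at this
  have hcd' : ∀ (a L c : ℕ), 0 < L → a ≤ c * L → a ⌈/⌉ L ≤ c := fun a L c h h' => by
    rw [ceilDiv_le_iff_le_mul h]
    rwa [mul_comm]
  refine ⟨?_, ?_⟩
  · split_ifs with hpe
    · subst hpe
      refine ⟨(fills_one_eq hr₁ hr₁p hr₂ hr₂q _).mpr ⟨(p - 1) ⌈/⌉ min r₁ r₂, add_comm _ _,
        hcd _ _ hL⟩, ?_⟩
      intro s hs
      obtain ⟨t, rfl, h⟩ := (fills_one_eq hr₁ hr₁p hr₂ hr₂q _).mp hs
      have := hcd' _ _ _ hL h
      omega
    · have hlt : p < q := lt_of_le_of_ne hpq hpe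
      refine ⟨?_, ?_⟩
      · refine (fills_one_lt hr₁ hr₁p hr₂ hr₂q hlt _).mpr
          ⟨max (1 + p ⌈/⌉ min r₁ r₂) (min q (2 * p) ⌈/⌉ min r₁ r₂) - 1, by omega, ?_, ?_⟩
        · refine (hcd p _ hL).trans (Nat.mul_le_mul_right _ ?_)
          omega
        · refine (hcd (min q (2 * p)) _ hL).trans (Nat.mul_le_mul_right _ ?_)
          omega
      · intro s hs
        obtain ⟨t, rfl, h, h'⟩ := (fills_one_lt hr₁ hr₁p hr₂ hr₂q hlt _).mp hs
        have h1 := hcd' _ _ _ hL h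
        have h2 := hcd' _ _ _ hL h'
        omega
  · refine ⟨?_, ?_⟩
    · refine (fills_two hr₁ hr₁p hr₂ hr₂q hpq _).mpr ⟨?_, ?_⟩
      · exact (hcd p _ hL1).trans (Nat.mul_le_mul_right _ (le_max_left _ _))
      · exact (hcd (min q (2 * p)) _ hL2).trans (Nat.mul_le_mul_right _ (le_max_right _ _))
    · intro s hs
      obtain ⟨h, h'⟩ := (fills_two hr₁ hr₁p hr₂ hr₂q hpq _).mp hs
      exact max_le (hcd' _ _ _ hL1 h) (hcd' _ _ _ hL2 h')

end

end Pool.Agent.H41.Pen
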