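import Pool.Agent.H41.Pen.Orbit

/-!
Decomposition of the rectangular normal forms.
-/

set_option autoImplicit false

namespace Pool.Agent.H41.Pen

open Finset Topology

/-- Any small pencil lies in the cone `K2`. -/
theorem mem_K2_self {α β : Type*} [Fintype α] [Fintype β] {r₁ r₂ : ℕ} (h₁ : Fintype.card α = r₁)
    (h₂ : Fintype.card β = r₂) (T : α × β × Fin 2 → ℂ) : T ∈ K2 α β r₁ r₂ := by
  classical
  set e₁ := Fintype.equivFinOfCardEq h₁
  set e₂ := Fintype.equivFinOfCardEq h₂
  refine ⟨Matrix.of fun a i => if e₁ a = i then 1 else 0,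
    Matrix.of fun j b => if e₂ b = j then 1 else 0,
    fun z => Matrix.of fun i j => T (e₁.symm i, e₂.symm j, z), fun z => ?_⟩
  ext a b
  simp only [slice, Matrix.mul_apply, Matrix.of_apply, ite_mul, one_mul, zero_mul,
    Finset.sum_ite_eq, Finset.mem_univ, if_true, mul_ite, mul_one, mul_zero,
    Equiv.symm_apply_apply]

/-- `rank M ≤ L` form of the normal form with all blocks equal. -/
theorem rect_mem_K1 (L t : ℕ) :
    rect (fun a : Fin L × Fin t => a.1) (fun a => (a.2 : ℕ) + 1) ∈
      SumS (K1 (Fin L × Fin t) ((Fin L × Fin t) ⊕ Fin L) L) (t + 1) := by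
  classical
  refine ⟨Fin.cases
    (fun x => match x with
      | (_, Sum.inl _, _) => 0
      | (a, Sum.inr b, 0) => if a.1 = b then 1 else 0
      | (_, Sum.inr _, 1) => 0)
    (fun j x => match x with
      | (a, Sum.inl a', 0) => if a = a' ∧ a.2 = j then 1 else 0
      | (a, Sum.inl a', 1) => if a = a' ∧ a.2 = j then (j : ℂ) + 1 else 0
      | (_, Sum.inr _, _) => 0), ?_, ?_⟩
  · intro k
    refine Fin.cases ?_ (fun j => ?_) k
    · refine ⟨Matrix.of fun a l => if a.1 = l then 1 else 0,
        Matrix.of fun l b => match b with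
          | Sum.inl _ => 0
          | Sum.inr b => if b = l then 1 else 0, fun z => if z = 0 then 1 else 0, fun z => ?_⟩
      ext a b
      rcases b with a' | b
      · simp [slice, Matrix.mul_apply]
      · fin_cases z
        · simp [slice, Matrix.mul_apply, eq_comm]
        · simp [slice, Matrix.mul_apply]
    · refine ⟨Matrix.of fun a l => if a = (l, j) then 1 else 0,
        Matrix.of fun l b => match b with
          | Sum.inl a' => if a' = (l, j) then 1 else 0
          | Sum.inr _ => 0, fun z => if z = 0 then 1 else (j : ℂ) + 1, fun z => ?_⟩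
      ext a b
      rcases b with a' | b
      · have key : (∑ l : Fin L, (if a = (l, j) then (1 : ℂ) else 0) *
            (if a' = (l, j) then (1 : ℂ) else 0)) = if a = a' ∧ a.2 = j then 1 else 0 := by
          rw [Finset.sum_eq_single a.1]
          · by_cases h : a.2 = j
            · have : a = (a.1, j) := Prod.ext rfl h
              by_cases h' : a = a'
              · rw [if_pos this, if_pos (h' ▸ this), if_pos ⟨h', h⟩, one_mul]
              · rw [if_pos this, if_neg (fun h2 => h' (this.trans h2.symm)),
                  if_neg (fun h2 => h' h2.1), mul_zero]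
            · have : a ≠ (a.1, j) := fun h2 => h (congrArg Prod.snd h2)
              have h3 : ¬ (a = a' ∧ a.2 = j) := fun h2 => h h2.2
              rw [if_neg this, if_neg h3, zero_mul]
          · intro l _ hl
            have : a ≠ (l, j) := fun h2 => hl (congrArg Prod.fst h2).symm
            rw [if_neg this, zero_mul]
          · intro h; exact absurd (Finset.mem_univ _) h
        fin_cases z
        · simp only [slice, Matrix.smul_apply, Matrix.mul_apply, Matrix.of_apply, key, smul_eq_mul]
          simp
        · simp only [slice, Matrix.smul_apply, Matrix.mul_apply, Matrix.of_apply, key, smul_eq_mul]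
          simp
      · simp [slice, Matrix.mul_apply]
  · rw [Fin.sum_univ_succ]
    funext ⟨a, b, z⟩
    rw [Pi.add_apply, Finset.sum_apply]
    simp only [Fin.cases_zero, Fin.cases_succ]
    rcases b with a' | b
    · fin_cases z
      · show (if a = a' then (1 : ℂ) else 0) = 0 + ∑ j, (if a = a' ∧ a.2 = j then 1 else 0)
        by_cases h : a = a'
        · simp [h]
        · simp [h]
      · show (if a = a' then (((a.2 : ℕ) + 1 : ℕ) : ℂ) else 0) =
          0 + ∑ j : Fin t, (if a = a' ∧ a.2 = j then (j : ℂ) + 1 else 0)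
        by_cases h : a = a'
        · simp [h]
        · simp [h]
    · fin_cases z
      · show (if a.1 = b then (1 : ℂ) else 0) = (if a.1 = b then 1 else 0) + ∑ j : Fin t, 0
        simp
      · show (0 : ℂ) = 0 + ∑ j : Fin t, 0
        simp

/-- The direct sum of `s` equal normal forms. -/
theorem rect_mem_K2 (s r n : ℕ) (blk : Fin r → Fin n) (lab : Fin r → ℕ) :
    rect (fun a : Fin s × Fin r => (a.1, blk a.2)) (fun a => lab a.2) ∈
      SumS (K2 (Fin s × Fin r) ((Fin s × Fin r) ⊕ (Fin s × Fin n)) r (r + n)) s := by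
  classical
  refine ⟨fun k => act (Matrix.of fun (a : Fin s × Fin r) (i : Fin r) =>
      if a = (k, i) then (1 : ℂ) else 0)
    (Matrix.of fun (j : Fin r ⊕ Fin n) (b : (Fin s × Fin r) ⊕ (Fin s × Fin n)) => match j, b with
      | Sum.inl i, Sum.inl a => if a = (k, i) then (1 : ℂ) else 0
      | Sum.inl _, Sum.inr _ => 0
      | Sum.inr _, Sum.inl _ => 0
      | Sum.inr i, Sum.inr c => if c = (k, i) then (1 : ℂ) else 0) (rect blk lab), ?_, ?_⟩
  · intro k
    apply act_mem_K2
    apply mem_K2_self (Fintype.card_fin r)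
    simp
  · funext ⟨a, b, z⟩
    rw [Finset.sum_apply]
    rcases a with ⟨k₀, i₀⟩
    rw [Finset.sum_eq_single k₀]
    · simp only [act, Matrix.mul_apply, Matrix.of_apply, Prod.mk.injEq, true_and, ite_mul,
        one_mul, zero_mul, Finset.sum_ite_eq, Finset.mem_univ, if_true, Fintype.sum_sum_type,
        slice]
      rcases b with ⟨k₁, i₁⟩ | ⟨k₁, i₁⟩
      · by_cases hk : k₁ = k₀
        · subst hk
          simp only [Prod.mk.injEq, true_and, mul_ite, mul_one, mul_zero, Finset.sum_ite_eq,
            Finset.mem_univ, if_true, Finset.sum_const_zero, add_zero]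
          fin_cases z
          · simp [rect]
          · simp [rect]
        · have hk' : ¬ k₀ = k₁ := fun h => hk h.symm
          simp only [Prod.mk.injEq, hk, false_and, if_false, mul_zero, Finset.sum_const_zero,
            add_zero]
          fin_cases z
          · simp [rect, hk']
          · simp [rect, hk']
      · by_cases hk : k₁ = k₀
        · subst hk
          simp only [Prod.mk.injEq, true_and, mul_ite, mul_one, mul_zero, Finset.sum_ite_eq,
            Finset.mem_univ, if_true, Finset.sum_const_zero, zero_add]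
          fin_cases z
          · simp [rect]
          · simp [rect]
        · have hk' : ¬ k₀ = k₁ := fun h => hk h.symm
          simp only [Prod.mk.injEq, hk, false_and, if_false, mul_zero, Finset.sum_const_zero,
            add_zero]
          fin_cases z
          · simp [rect, hk']
          · simp [rect]
    · intro k _ hk
      have hk' : ¬ k₀ = k := fun h => hk h.symm
      simp only [act, Matrix.mul_apply, Matrix.of_apply, Prod.mk.injEq, hk', false_and, if_false,
        zero_mul, Finset.sum_const_zero]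
    · intro h; exact absurd (Finset.mem_univ _) h

/-- Rectangular upper bound, third entry one. -/
theorem fill_K1 (L t : ℕ) :
    FillSet (SumS (K1 (Fin L × Fin t) ((Fin L × Fin t) ⊕ Fin L) L) (t + 1)) := by
  refine fillSet_rect (fun a : Fin L × Fin t => a.1) (fun a => (a.2 : ℕ) + 1) ?_ ?_ ?_ ?_
  · intro a; exact Nat.succ_ne_zero _
  · intro a a' h1 h2
    refine Prod.ext h1 (Fin.ext ?_)
    simpa using h2
  · intro b a a' _ h1 _
    exact absurd rfl (h1 (b, a.2) rfl)
  · intro g h
    exact (stab_K1 L).sums g h (rect_mem_K1 L t)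

/-- Rectangular upper bound, third entry two. -/
theorem fill_K2 (s r n : ℕ) (hn : 0 < n) :
    FillSet (SumS (K2 (Fin s × Fin r) ((Fin s × Fin r) ⊕ (Fin s × Fin n)) r (r + n)) s) := by
  refine fillSet_rect
    (fun a : Fin s × Fin r => (a.1, (⟨(a.2 : ℕ) % n, Nat.mod_lt _ hn⟩ : Fin n)))
    (fun a => (a.2 : ℕ) / n + 1) ?_ ?_ ?_ ?_
  · intro a; exact Nat.succ_ne_zero _
  · rintro ⟨k, i⟩ ⟨k', i'⟩ h1 h2
    simp only [Prod.mk.injEq, Fin.mk.injEq] at h1 h2
    refine Prod.ext h1.1 (Fin.ext ?_)
    show (i : ℕ) = i'
    have h3 := Nat.div_add_mod (i : ℕ) n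
    have h4 := Nat.div_add_mod (i' : ℕ) n
    have h5 : (i : ℕ) / n = (i' : ℕ) / n := by omega
    rw [← h3, ← h4, h5, h1.2]
  · rintro ⟨k₀, c⟩ ⟨k, i⟩ ⟨k', i'⟩ h1 h2 h3
    simp only [Prod.mk.injEq, Fin.mk.injEq] at h1
    refine Prod.ext h1.1 (Fin.ext ?_)
    show (i : ℕ) = i'
    have e1 := Nat.div_add_mod (i : ℕ) n
    have e2 := Nat.div_add_mod (i' : ℕ) n
    -- the label of `i` is missing in block `c`
    have m1 : ∀ j : Fin r, (∀ x : Fin s × Fin r, (x.1, (⟨(x.2 : ℕ) % n, Nat.mod_lt _ hn⟩ : Fin n)) =
        (k₀, c) → (x.2 : ℕ) / n + 1 ≠ (j : ℕ) / n + 1) → r ≤ n * ((j : ℕ) / n) + c := by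
      intro j hj
      by_contra hlt
      push Not at hlt
      refine hj (k₀, ⟨n * ((j : ℕ) / n) + c, hlt⟩) ?_ ?_
      · simp only [Prod.mk.injEq, true_and]
        apply Fin.ext
        simp [Nat.mod_eq_of_lt c.isLt]
      · simp only [add_left_inj]
        rw [Nat.mul_add_div hn, Nat.div_eq_of_lt c.isLt, add_zero]
    have m2 := m1 i h2
    have m3 := m1 i' h3
    have hi := i.isLt
    have hi' := i'.isLt
    have hc := c.isLt
    have h5 : (i : ℕ) / n = (i' : ℕ) / n := by
      rcases lt_trichotomy ((i : ℕ) / n) ((i' : ℕ) / n) with hlt | heq | hgt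
      · exfalso
        have : n * ((i : ℕ) / n) + n ≤ n * ((i' : ℕ) / n) := by
          have := Nat.mul_le_mul_left n (Nat.succ_le_of_lt hlt)
          rwa [Nat.mul_succ] at this
        omega
      · exact heq
      · exfalso
        have : n * ((i' : ℕ) / n) + n ≤ n * ((i : ℕ) / n) := by
          have := Nat.mul_le_mul_left n (Nat.succ_le_of_lt hgt)
          rwa [Nat.mul_succ] at this
        omega
    rw [← e1, ← e2, h5, h1.2]
  · intro g h
    exact (stab_K2 r (r + n)).sums g h (rect_mem_K2 s r n
      (fun i => (⟨(i : ℕ) % n, Nat.mod_lt _ hn⟩ : Fin n)) (fun i => (i : ℕ) / n + 1))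

end Pool.Agent.H41.Pen
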