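import Pool.Agent.H41.Pen.Basic

/-!
Density of `GL × GL`-orbits of families of pencils.
-/

set_option autoImplicit false

namespace Pool.Agent.H41.Pen

open Finset Topology

variable {α β κ : Type} [Fintype α] [DecidableEq α] [Fintype β] [DecidableEq β] [Fintype κ]
  [DecidableEq κ]

/-- The family. -/
def fam (T0 : α × β × Fin 2 → ℂ) (D : κ → (α × β × Fin 2 → ℂ))
    (p : (α → α → ℂ) × (β → β → ℂ) × (κ → ℂ)) : α × β × Fin 2 → ℂ :=
  act (Matrix.of p.1) (Matrix.of p.2.1) (T0 + ∑ k, p.2.2 k • D k)

theorem fam_apply (T0 : α × β × Fin 2 → ℂ) (D : κ → (α × β × Fin 2 → ℂ))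
    (p : (α → α → ℂ) × (β → β → ℂ) × (κ → ℂ)) (x : α × β × Fin 2) :
    fam T0 D p x = ∑ b, (∑ a, p.1 x.1 a * (T0 (a, b, x.2.2) + ∑ k, p.2.2 k * D k (a, b, x.2.2))) *
      p.2.1 b x.2.1 := by
  simp only [fam, act, Matrix.mul_apply, slice, Matrix.of_apply, Pi.add_apply, Finset.sum_apply,
    Pi.smul_apply, smul_eq_mul]

theorem contDiff_fam (T0 : α × β × Fin 2 → ℂ) (D : κ → (α × β × Fin 2 → ℂ)) :
    ContDiff ℂ 1 (fam T0 D) := by
  refine contDiff_pi.mpr fun x => ?_
  simp only [fam_apply]
  have h1 : ∀ a a' : α, ContDiff ℂ 1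
      (fun p : (α → α → ℂ) × (β → β → ℂ) × (κ → ℂ) => p.1 a a') := fun a a' =>
    contDiff_pi.mp (contDiff_pi.mp contDiff_fst a) a'
  have h2 : ∀ b b' : β, ContDiff ℂ 1
      (fun p : (α → α → ℂ) × (β → β → ℂ) × (κ → ℂ) => p.2.1 b b') := fun b b' =>
    contDiff_pi.mp (contDiff_pi.mp (contDiff_fst.comp contDiff_snd) b) b'
  have h3 : ∀ k : κ, ContDiff ℂ 1
      (fun p : (α → α → ℂ) × (β → β → ℂ) × (κ → ℂ) => p.2.2 k) := fun k =>
    contDiff_pi.mp (contDiff_snd.comp contDiff_snd) k
  refine ContDiff.sum fun b _ => ContDiff.mul ?_ (h2 b x.2.1)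
  refine ContDiff.sum fun a _ => ContDiff.mul (h1 x.1 a) ?_
  refine ContDiff.add contDiff_const (ContDiff.sum fun k _ => ContDiff.mul (h3 k) contDiff_const)

/-- Density criterion. -/
theorem fillSet_family (T0 : α × β × Fin 2 → ℂ) (D : κ → (α × β × Fin 2 → ℂ))
    {S : Set (α × β × Fin 2 → ℂ)}
    (hS : ∀ᶠ u in 𝓝 (0 : κ → ℂ), ∀ (g : Matrix α α ℂ) (h : Matrix β β ℂ),
      act g h (T0 + ∑ k, u k • D k) ∈ S)
    (hL : ∀ φ : α × β × Fin 2 → ℂ,
      (∀ a a', ∑ b, ∑ z, φ (a, b, z) * T0 (a', b, z) = 0) →
      (∀ b b', ∑ a, ∑ z, φ (a, b, z) * T0 (a, b', z) = 0) →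
      (∀ k, ∑ x, φ x * D k x = 0) → φ = 0) : FillSet S := by
  set p0 : (α → α → ℂ) × (β → β → ℂ) × (κ → ℂ) :=
    (fun a a' => if a = a' then 1 else 0, fun b b' => if b = b' then 1 else 0, 0) with hp0
  refine fillSet_of_param (contDiff_fam T0 D) p0 ?_
    (ι := (α × α) ⊕ (β × β) ⊕ κ)
    (fun i => match i with
      | Sum.inl (a, a') => (fun x y => if x = a ∧ y = a' then 1 else 0, 0, 0)
      | Sum.inr (Sum.inl (b, b')) => (0, fun x y => if x = b' ∧ y = b then 1 else 0, 0)
      | Sum.inr (Sum.inr k) => (0, 0, Pi.single k 1))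
    (fun i => match i with
      | Sum.inl (a, a') => fun x => if x.1 = a then T0 (a', x.2.1, x.2.2) else 0
      | Sum.inr (Sum.inl (b, b')) => fun x => if x.2.1 = b then T0 (x.1, b', x.2.2) else 0
      | Sum.inr (Sum.inr k) => D k) ?_ ?_
  · have hcont : Filter.Tendsto (fun p : (α → α → ℂ) × (β → β → ℂ) × (κ → ℂ) => p.2.2) (𝓝 p0)
        (𝓝 0) := by
      have : Continuous (fun p : (α → α → ℂ) × (β → β → ℂ) × (κ → ℂ) => p.2.2) := by fun_prop
      exact this.tendsto p0
    filter_upwards [hcont.eventually hS] with p hp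
    exact hp _ _
  · rintro (⟨a, a'⟩ | ⟨b, b'⟩ | k) ε
    · funext x
      simp only [fam_apply, hp0, Prod.fst_add, Prod.snd_add, Prod.smul_fst, Prod.smul_snd,
        Pi.add_apply, Pi.smul_apply, smul_eq_mul, Pi.zero_apply, mul_zero, add_zero, zero_mul,
        Finset.sum_const_zero, add_mul, Finset.sum_add_distrib, ite_mul, one_mul, mul_ite,
        Finset.sum_ite_eq, Finset.sum_ite_eq', Finset.mem_univ, if_true, mul_one]
      congr 1
      by_cases hx : x.1 = a
      · simp [hx]
      · simp [hx]
    · funext x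
      simp only [fam_apply, hp0, Prod.fst_add, Prod.snd_add, Prod.smul_fst, Prod.smul_snd,
        Pi.add_apply, Pi.smul_apply, smul_eq_mul, Pi.zero_apply, mul_zero, add_zero, zero_mul,
        Finset.sum_const_zero, mul_add, Finset.sum_add_distrib, ite_mul, one_mul, mul_ite,
        Finset.sum_ite_eq, Finset.sum_ite_eq', Finset.mem_univ, if_true, mul_one]
      congr 1
      by_cases hx : x.2.1 = b
      · simp [hx, mul_comm]
      · simp [hx]
    · funext x
      simp only [fam_apply, hp0, Prod.fst_add, Prod.snd_add, Prod.smul_fst, Prod.smul_snd,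
        Pi.add_apply, Pi.smul_apply, smul_eq_mul, Pi.zero_apply, mul_zero, add_zero, zero_mul,
        zero_add, Pi.single_apply,
        Finset.sum_const_zero, mul_add, Finset.sum_add_distrib, ite_mul, one_mul, mul_ite,
        Finset.sum_ite_eq, Finset.sum_ite_eq', Finset.mem_univ, if_true, mul_one]
  · intro φ hφ
    apply hL φ
    · intro a a'
      have := hφ (Sum.inl (a, a'))
      simp only [Fintype.sum_prod_type] at this
      rw [Finset.sum_eq_single a] at this
      · simpa using this
      · intro x _ hx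
        simp [hx]
      · intro h; exact absurd (Finset.mem_univ a) h
    · intro b b'
      have := hφ (Sum.inr (Sum.inl (b, b')))
      simp only [Fintype.sum_prod_type] at this
      rw [← this]
      refine Finset.sum_congr rfl fun a _ => ?_
      rw [Finset.sum_eq_single b]
      · simp
      · intro x _ hx
        simp [hx]
      · intro h; exact absurd (Finset.mem_univ b) h
    · intro k
      exact hφ (Sum.inr (Sum.inr k))

/-- The rectangular normal form. -/
def rect {B : Type} [DecidableEq B] (blk : α → B) (lab : α → ℕ) : α × (α ⊕ B) × Fin 2 → ℂ :=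
  fun x => match x with
    | (a, Sum.inl a', 0) => if a = a' then 1 else 0
    | (a, Sum.inl a', 1) => if a = a' then (lab a : ℂ) else 0
    | (a, Sum.inr b, 0) => if blk a = b then 1 else 0
    | (_, Sum.inr _, 1) => 0

/-- The orbit of the rectangular normal form is dense. -/
theorem fillSet_rect {B : Type} [Fintype B] [DecidableEq B] (blk : α → B) (lab : α → ℕ)
    (h0 : ∀ a, lab a ≠ 0) (h1 : ∀ a a', blk a = blk a' → lab a = lab a' → a = a')
    (h2 : ∀ (b : B) (a a' : α), blk a = blk a' → (∀ c, blk c = b → lab c ≠ lab a) →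
      (∀ c, blk c = b → lab c ≠ lab a') → a = a')
    {S : Set (α × (α ⊕ B) × Fin 2 → ℂ)}
    (hS : ∀ (g : Matrix α α ℂ) (h : Matrix (α ⊕ B) (α ⊕ B) ℂ), act g h (rect blk lab) ∈ S) :
    FillSet S := by
  refine fillSet_family (κ := Empty) (rect blk lab) (fun k => k.elim) ?_ ?_
  · refine Filter.Eventually.of_forall fun u g h => ?_
    simpa using hS g h
  · intro φ hrow hcol _
    -- the row relations
    have hb : ∀ a a' : α, φ (a, Sum.inl a', 0) + φ (a, Sum.inl a', 1) * lab a' +
        φ (a, Sum.inr (blk a'), 0) = 0 := by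
      intro a a'
      have := hrow a a'
      simp only [Fintype.sum_sum_type, Fin.sum_univ_two, rect, mul_ite, mul_one, mul_zero,
        Finset.sum_add_distrib, Finset.sum_ite_eq, Finset.mem_univ, if_true,
        Finset.sum_const_zero, add_zero] at this
      linear_combination this
    have ha : ∀ (a' : α) (b : α ⊕ B), φ (a', b, 0) + φ (a', b, 1) * lab a' = 0 := by
      intro a' b
      have := hcol b (Sum.inl a')
      simp only [Fin.sum_univ_two, rect, mul_ite, mul_one, mul_zero,
        Finset.sum_add_distrib, Finset.sum_ite_eq', Finset.mem_univ, if_true] at this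
      exact this
    have ha' : ∀ (c : B) (b : α ⊕ B), ∑ a, (if blk a = c then φ (a, b, 0) else 0) = 0 := by
      intro c b
      have := hcol b (Sum.inr c)
      simp only [Fin.sum_univ_two, rect, mul_ite, mul_one, mul_zero, add_zero] at this
      exact this
    have hlab : ∀ a, (lab a : ℂ) ≠ 0 := fun a => Nat.cast_ne_zero.mpr (h0 a)
    -- `Q` in terms of `P`
    have hQ : ∀ (a : α) (b : α ⊕ B), φ (a, b, 1) = - φ (a, b, 0) / lab a := by
      intro a b
      rw [eq_div_iff (hlab a)]
      linear_combination ha a b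
    have hb' : ∀ a a' : α, φ (a, Sum.inl a', 0) * (lab a - lab a') +
        lab a * φ (a, Sum.inr (blk a'), 0) = 0 := by
      intro a a'
      have := hb a a'
      rw [hQ] at this
      field_simp [hlab a] at this
      linear_combination this
    have s1 : ∀ (a : α) (b : B), (∃ a', blk a' = b ∧ lab a' = lab a) →
        φ (a, Sum.inr b, 0) = 0 := by
      rintro a b ⟨a', rfl, hl⟩
      have := hb' a a'
      rw [hl, sub_self, mul_zero, zero_add] at this
      exact (mul_eq_zero.mp this).resolve_left (hlab a)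
    have s2 : ∀ (a : α) (b : B), φ (a, Sum.inr b, 0) = 0 := by
      intro a b
      by_cases h : ∃ a', blk a' = b ∧ lab a' = lab a
      · exact s1 a b h
      · have hs := ha' (blk a) (Sum.inr b)
        rw [Finset.sum_eq_single a] at hs
        · simpa using hs
        · intro x _ hx
          by_cases hx' : blk x = blk a
          · rw [if_pos hx']
            apply s1
            by_contra hcon
            apply hx
            refine h2 b x a hx' (fun c hc hcl => hcon ⟨c, hc, hcl⟩) (fun c hc hcl => h ⟨c, hc, hcl⟩)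
          · rw [if_neg hx']
        · intro h; exact absurd (Finset.mem_univ a) h
    have s3 : ∀ a a' : α, lab a ≠ lab a' → φ (a, Sum.inl a', 0) = 0 := by
      intro a a' hl
      have := hb' a a'
      rw [s2, mul_zero, add_zero] at this
      refine (mul_eq_zero.mp this).resolve_right ?_
      exact sub_ne_zero.mpr fun h => hl (Nat.cast_injective h)
    have s4 : ∀ a a' : α, φ (a, Sum.inl a', 0) = 0 := by
      intro a a'
      by_cases hl : lab a = lab a'
      · have hs := ha' (blk a) (Sum.inl a')
        rw [Finset.sum_eq_single a] at hs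
        · simpa using hs
        · intro x _ hx
          by_cases hx' : blk x = blk a
          · rw [if_pos hx']
            apply s3
            intro h
            exact hx (h1 x a hx' (h.trans hl.symm))
          · rw [if_neg hx']
        · intro h; exact absurd (Finset.mem_univ a) h
      · exact s3 a a' hl
    have s5 : ∀ (a : α) (b : α ⊕ B), φ (a, b, 0) = 0 := by
      rintro a (a' | b)
      · exact s4 a a'
      · exact s2 a b
    funext ⟨a, b, z⟩
    fin_cases z
    · exact s5 a b
    · show φ (a, b, 1) = 0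
      rw [hQ, s5, neg_zero, zero_div]

end Pool.Agent.H41.Pen
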