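import Pool.Agent.H41.Pen.Mem

/-!
Square pencils.
-/

set_option autoImplicit false

namespace Pool.Agent.H41.Pen

open Finset Topology Polynomial

/-- The diagonal pencil with eigenvalues `lam`. -/
def diagP {α : Type} [DecidableEq α] (lam : α → ℂ) : α × α × Fin 2 → ℂ :=
  fun x => match x with
    | (a, b, 0) => if a = b then 1 else 0
    | (a, b, 1) => if a = b then lam a else 0

theorem fillSet_diag {α : Type} [Fintype α] [DecidableEq α] {S : Set (α × α × Fin 2 → ℂ)}
    (hS : ∀ lam : α → ℂ, Function.Injective lam → ∀ (g h : Matrix α α ℂ),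
      act g h (diagP lam) ∈ S) : FillSet S := by
  obtain ⟨lam, hlam⟩ : ∃ lam : α → ℂ, Function.Injective lam := by
    refine ⟨fun a => ((Fintype.equivFin α a : ℕ) : ℂ), fun a b h => ?_⟩
    have := Nat.cast_injective h
    exact (Fintype.equivFin α).injective (Fin.ext this)
  refine fillSet_family (κ := α) (diagP lam)
    (fun k x => if x.1 = k ∧ x.2.1 = k ∧ x.2.2 = 1 then 1 else 0) ?_ ?_
  · have hev : ∀ᶠ u in 𝓝 (0 : α → ℂ), Function.Injective (lam + u) := by
      have h1 : ∀ a b : α, ∀ᶠ u in 𝓝 (0 : α → ℂ), a ≠ b → (lam + u) a ≠ (lam + u) b := by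
        intro a b
        by_cases hab : a = b
        · exact Filter.Eventually.of_forall fun u h => absurd hab h
        · have hc : Continuous fun u : α → ℂ => (lam + u) a - (lam + u) b := by
            simp only [Pi.add_apply]; fun_prop
          have h2 : (fun u : α → ℂ => (lam + u) a - (lam + u) b) 0 ≠ 0 := by
            simp only [Pi.add_apply, Pi.zero_apply, add_zero]
            exact sub_ne_zero.mpr fun h => hab (hlam h)
          filter_upwards [hc.continuousAt.eventually_ne h2] with u hu _
          exact sub_ne_zero.mp hu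
      have h2 : ∀ᶠ u in 𝓝 (0 : α → ℂ), ∀ a b : α, a ≠ b → (lam + u) a ≠ (lam + u) b := by
        rw [Filter.eventually_all]
        intro a
        rw [Filter.eventually_all]
        exact h1 a
      filter_upwards [h2] with u hu a b hab
      by_contra hne
      exact hu a b hne hab
    filter_upwards [hev] with u hu g h
    have : diagP lam + ∑ k, u k • (fun x : α × α × Fin 2 =>
        if x.1 = k ∧ x.2.1 = k ∧ x.2.2 = 1 then (1 : ℂ) else 0) = diagP (lam + u) := by
      funext ⟨a, b, z⟩
      rw [Pi.add_apply, Finset.sum_apply]
      simp only [Pi.smul_apply, smul_eq_mul]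
      rw [Finset.sum_eq_single a]
      · fin_cases z
        · simp [diagP]
        · by_cases hab : a = b
          · subst hab; simp [diagP]
          · have : ¬ b = a := fun h => hab h.symm
            simp [diagP, hab, this]
      · intro k _ hk
        have : ¬ a = k := fun h => hk h.symm
        simp [this]
      · intro h; exact absurd (Finset.mem_univ a) h
    rw [this]
    exact hS _ hu g h
  · intro φ hrow hcol hD
    have hb : ∀ a a' : α, φ (a, a', 0) + φ (a, a', 1) * lam a' = 0 := by
      intro a a'
      have := hrow a a'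
      simp only [Fin.sum_univ_two, diagP, mul_ite, mul_one, mul_zero,
        Finset.sum_add_distrib, Finset.sum_ite_eq, Finset.mem_univ, if_true] at this
      exact this
    have ha : ∀ a' b : α, φ (a', b, 0) + φ (a', b, 1) * lam a' = 0 := by
      intro a' b
      have := hcol b a'
      simp only [Fin.sum_univ_two, diagP, mul_ite, mul_one, mul_zero,
        Finset.sum_add_distrib, Finset.sum_ite_eq', Finset.mem_univ, if_true] at this
      exact this
    have hd : ∀ a : α, φ (a, a, 1) = 0 := by
      intro a
      have := hD a
      rw [Finset.sum_eq_single (a, a, (1 : Fin 2))] at this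
      · simpa using this
      · rintro ⟨x, y, z⟩ _ hne
        have : ¬ (x = a ∧ y = a ∧ z = 1) := by
          rintro ⟨rfl, rfl, rfl⟩; exact hne rfl
        simp only [this, if_false, mul_zero]
      · intro h; exact absurd (Finset.mem_univ _) h
    have h1 : ∀ a b : α, φ (a, b, 1) = 0 := by
      intro a b
      by_cases hab : a = b
      · subst hab; exact hd a
      · have h2 : φ (a, b, 1) * (lam a - lam b) = 0 := by
          linear_combination ha a b - hb a b
        refine (mul_eq_zero.mp h2).resolve_right ?_
        exact sub_ne_zero.mpr fun h => hab (hlam h)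
    funext ⟨a, b, z⟩
    fin_cases z
    · have := ha a b
      rw [h1, zero_mul, add_zero] at this
      exact this
    · exact h1 a b

theorem lagrange_sum {t : ℕ} (μ : Fin (t + 1) → ℂ) (hμ : Function.Injective μ) (f : ℂ[X])
    (hf : f.degree < ((t + 1 : ℕ) : WithBot ℕ)) (x : ℂ) :
    ∑ k, (Lagrange.basis univ μ k).eval x * f.eval (μ k) = f.eval x := by
  have h := Lagrange.eq_interpolate (s := (univ : Finset (Fin (t + 1)))) (v := μ)
    (hμ.injOn) (f := f) (by simpa using hf)
  conv_rhs => rw [h]
  rw [Lagrange.interpolate_apply, eval_finsetSum]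
  refine Finset.sum_congr rfl fun k _ => ?_
  rw [eval_mul, eval_C, mul_comm]

/-- The decomposition of the diagonal pencils of size `(L₀+1)t + 1`. -/
theorem diag_mem_K1 (L₀ t : ℕ) (lam : Fin (t + 1) ⊕ (Fin L₀ × Fin t) → ℂ)
    (hlam : Function.Injective lam) :
    diagP lam ∈ SumS (K1 (Fin (t + 1) ⊕ (Fin L₀ × Fin t)) (Fin (t + 1) ⊕ (Fin L₀ × Fin t))
      (L₀ + 1)) (t + 1) := by
  classical
  set μ : Fin (t + 1) → ℂ := fun k => lam (Sum.inl k) with hμ
  have hμi : Function.Injective μ := fun a b h => Sum.inl_injective (hlam h)
  set ν : Fin L₀ → Fin t → ℂ := fun l i => lam (Sum.inr (l, i)) with hν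
  have hνi : ∀ l, Function.Injective (ν l) := fun l a b h => by
    have := Sum.inr_injective (hlam h)
    simpa using this
  -- entries of the block part
  set C : Fin (t + 1) → Matrix (Fin (t + 1) ⊕ (Fin L₀ × Fin t)) (Fin (L₀ + 1)) ℂ := fun k =>
    Matrix.of fun a l => Fin.cases (motive := fun _ => ℂ)
      (match a with
        | Sum.inl a => if a = k then 1 else 0
        | Sum.inr _ => 0)
      (fun l => match a with
        | Sum.inl _ => 0
        | Sum.inr x => if x.1 = l then (Lagrange.basis univ μ k).eval (ν x.1 x.2) else 0) l with hC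
  set R : Fin (t + 1) → Matrix (Fin (L₀ + 1)) (Fin (t + 1) ⊕ (Fin L₀ × Fin t)) ℂ := fun k =>
    Matrix.of fun l a => Fin.cases (motive := fun _ => ℂ)
      (match a with
        | Sum.inl a => if a = k then 1 else 0
        | Sum.inr _ => 0)
      (fun l => match a with
        | Sum.inl _ => 0
        | Sum.inr x => if x.1 = l then (Lagrange.basis univ (ν x.1) x.2).eval (μ k) else 0) l with hR
  have hCR1 : ∀ k a b, (C k * R k) (Sum.inl a) (Sum.inl b) = if a = k ∧ b = k then 1 else 0 := by
    intro k a b
    rw [Matrix.mul_apply, Fin.sum_univ_succ]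
    simp only [hC, hR, Matrix.of_apply, Fin.cases_zero, Fin.cases_succ, mul_zero,
      Finset.sum_const_zero, add_zero, ite_mul, one_mul, zero_mul, ite_and]
  have hCR2 : ∀ k a b, (C k * R k) (Sum.inl a) (Sum.inr b) = 0 := by
    intro k a b
    rw [Matrix.mul_apply, Fin.sum_univ_succ]
    simp only [hC, hR, Matrix.of_apply, Fin.cases_zero, Fin.cases_succ, mul_zero, zero_mul,
      Finset.sum_const_zero, add_zero]
  have hCR3 : ∀ k a b, (C k * R k) (Sum.inr a) (Sum.inl b) = 0 := by
    intro k a b
    rw [Matrix.mul_apply, Fin.sum_univ_succ]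
    simp only [hC, hR, Matrix.of_apply, Fin.cases_zero, Fin.cases_succ, mul_zero, zero_mul,
      Finset.sum_const_zero, add_zero]
  have hCR4 : ∀ k a b, (C k * R k) (Sum.inr a) (Sum.inr b) =
      if a.1 = b.1 then (Lagrange.basis univ μ k).eval (ν a.1 a.2) *
        (Lagrange.basis univ (ν b.1) b.2).eval (μ k) else 0 := by
    intro k a b
    rw [Matrix.mul_apply, Fin.sum_univ_succ]
    simp only [hC, hR, Matrix.of_apply, Fin.cases_zero, Fin.cases_succ, mul_zero, zero_mul,
      zero_add, ite_mul, mul_ite, Finset.sum_ite_eq, Finset.mem_univ, if_true]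
  refine ⟨fun k x => (if x.2.2 = 0 then 1 else μ k) * (C k * R k) x.1 x.2.1, ?_, ?_⟩
  · intro k
    refine ⟨C k, R k, fun z => if z = 0 then 1 else μ k, fun z => ?_⟩
    ext a b
    rw [Matrix.smul_apply]
    rfl
  · funext ⟨a, b, z⟩
    rw [Finset.sum_apply]
    simp only
    rcases a with a | a <;> rcases b with b | b
    · simp only [hCR1]
      rw [Finset.sum_eq_single a]
      · by_cases hab : a = b
        · subst hab
          fin_cases z
          · simp [diagP]
          · simp [diagP, hμ]
        · have h' : ¬ b = a := fun h => hab h.symm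
          fin_cases z
          · simp [diagP, hab, h']
          · simp [diagP, hab, h']
      · intro k _ hk
        have : ¬ a = k := fun h => hk h.symm
        simp [this]
      · intro h; exact absurd (Finset.mem_univ _) h
    · simp only [hCR2, mul_zero, Finset.sum_const_zero]
      fin_cases z
      · simp [diagP]
      · simp [diagP]
    · simp only [hCR3, mul_zero, Finset.sum_const_zero]
      fin_cases z
      · simp [diagP]
      · simp [diagP]
    · simp only [hCR4]
      obtain ⟨l, i⟩ := a
      obtain ⟨l', i'⟩ := b
      by_cases hl : l = l'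
      · subst hl
        simp only [if_true]
        have ht : 0 < t := lt_of_le_of_lt (Nat.zero_le _) i.isLt
        have hdeg : (Lagrange.basis univ (ν l) i').degree = ((t - 1 : ℕ) : WithBot ℕ) := by
          rw [Lagrange.degree_basis (hνi l).injOn (Finset.mem_univ _), Finset.card_univ,
            Fintype.card_fin]
        have hb : (Lagrange.basis univ (ν l) i').eval (ν l i) = if i = i' then 1 else 0 := by
          by_cases hi : i = i'
          · subst hi
            rw [Lagrange.eval_basis_self (hνi l).injOn (Finset.mem_univ _), if_pos rfl]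
          · rw [Lagrange.eval_basis_of_ne (fun h => hi h.symm) (Finset.mem_univ _), if_neg hi]
        fin_cases z
        · have := lagrange_sum μ hμi (Lagrange.basis univ (ν l) i') (by
            rw [hdeg]; exact_mod_cast (by omega : t - 1 < t + 1)) (ν l i)
          rw [hb] at this
          simp only [diagP, Fin.zero_eta, Fin.isValue, if_true, one_mul, Sum.inr.injEq,
            Prod.mk.injEq, true_and]
          exact this.symm
        · have := lagrange_sum μ hμi (X * Lagrange.basis univ (ν l) i') (by
            rw [degree_mul, degree_X, hdeg]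
            have : (1 : WithBot ℕ) + ((t - 1 : ℕ) : WithBot ℕ) = ((1 + (t - 1) : ℕ) : WithBot ℕ) := by
              push_cast; rfl
            rw [this]
            exact_mod_cast (by omega : 1 + (t - 1) < t + 1)) (ν l i)
          simp only [eval_mul, eval_X, hb] at this
          simp only [diagP, Fin.mk_one, Fin.isValue, one_ne_zero, if_false, Sum.inr.injEq,
            Prod.mk.injEq, true_and]
          rw [mul_ite, mul_one, mul_zero] at this
          rw [show (if i = i' then lam (Sum.inr (l, i)) else 0) =
            if i = i' then ν l i else 0 from rfl, ← this]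
          refine Finset.sum_congr rfl fun k _ => ?_
          ring
      · simp only [hl, if_false, mul_zero, Finset.sum_const_zero]
        fin_cases z
        · simp [diagP, hl]
        · simp [diagP, hl]

/-- The decomposition of diagonal pencils into diagonal blocks. -/
theorem diag_mem_K2 (s L : ℕ) (lam : Fin s × Fin L → ℂ) :
    diagP lam ∈ SumS (K2 (Fin s × Fin L) (Fin s × Fin L) L L) s := by
  classical
  refine ⟨fun k => act (Matrix.of fun (a : Fin s × Fin L) (i : Fin L) =>
      if a = (k, i) then (1 : ℂ) else 0)
    (Matrix.of fun (i : Fin L) (a : Fin s × Fin L) => if a = (k, i) then (1 : ℂ) else 0)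
    (diagP fun i => lam (k, i)), ?_, ?_⟩
  · intro k
    apply act_mem_K2
    exact mem_K2_self (Fintype.card_fin L) (Fintype.card_fin L) _
  · funext ⟨a, b, z⟩
    rw [Finset.sum_apply]
    rcases a with ⟨k₀, i₀⟩
    rcases b with ⟨k₁, i₁⟩
    rw [Finset.sum_eq_single k₀]
    · simp only [act, Matrix.mul_apply, Matrix.of_apply, Prod.mk.injEq, true_and, ite_mul,
        one_mul, zero_mul, Finset.sum_ite_eq, Finset.mem_univ, if_true, slice, mul_ite, mul_one,
        mul_zero]
      by_cases hk : k₁ = k₀
      · subst hk
        simp only [true_and, Finset.sum_ite_eq, Finset.mem_univ, if_true]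
        fin_cases z
        · simp [diagP]
        · simp [diagP]
      · have hk' : ¬ k₀ = k₁ := fun h => hk h.symm
        simp only [hk, false_and, if_false, Finset.sum_const_zero]
        fin_cases z
        · simp [diagP, hk']
        · simp [diagP, hk']
    · intro k _ hk
      have hk' : ¬ k₀ = k := fun h => hk h.symm
      simp only [act, Matrix.mul_apply, Matrix.of_apply, Prod.mk.injEq, hk', false_and, if_false,
        zero_mul, Finset.sum_const_zero]
    · intro h; exact absurd (Finset.mem_univ _) h

theorem fill_K1_square (L₀ t : ℕ) :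
    FillSet (SumS (K1 (Fin (t + 1) ⊕ (Fin L₀ × Fin t)) (Fin (t + 1) ⊕ (Fin L₀ × Fin t))
      (L₀ + 1)) (t + 1)) :=
  fillSet_diag fun lam hlam g h => (stab_K1 (L₀ + 1)).sums g h (diag_mem_K1 L₀ t lam hlam)

theorem fill_K2_square (s L : ℕ) :
    FillSet (SumS (K2 (Fin s × Fin L) (Fin s × Fin L) L L) s) :=
  fillSet_diag fun lam _ g h => (stab_K2 L L).sums g h (diag_mem_K2 s L lam)

end Pool.Agent.H41.Pen
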